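import Pool.Agent.W581.Cyc.Final

set_option autoImplicit false

open MeasureTheory Set Topology Filter
open scoped ContDiff NNReal ENNReal

/-! # Statements of project NW: a complex cycle on the torus that is nowhere an average -/

namespace Pool.Agent.Y997.NW

open Pool.Agent.W581.Cyc

/-- the linear form `z₀ + 2 z₁`; it vanishes on `dir 0` and is integral on the lattice -/
noncomputable def ell (z : C2) : ℂ := z 0 + 2 * z 1

/-- periodic, equal to `1` exactly on the slabs `Re ell (z - v) ∈ ℤ` -/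
noncomputable def cs (v z : C2) : ℝ := Real.cos (Real.pi * (ell (z - v)).re) ^ 2

/-- thin bump -/
noncomputable def thin (v p : C2) (δ : ℝ) (n : ℕ) (z : C2) : ℝ := bump p δ z * cs v z ^ n

theorem contDiff_cs (v : C2) : ContDiff ℝ ∞ (cs v) := by
  unfold cs ell
  have h0 : ContDiff ℝ ∞ (fun z : C2 => (z - v) 0) := (contDiff_coord 0).comp (contDiff_id.sub contDiff_const)
  have h1 : ContDiff ℝ ∞ (fun z : C2 => (z - v) 1) := (contDiff_coord 1).comp (contDiff_id.sub contDiff_const)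
  have h2 : ContDiff ℝ ∞ (fun z : C2 => (z - v) 0 + 2 * (z - v) 1) := h0.add (contDiff_const.mul h1)
  exact (Real.contDiff_cos.comp (contDiff_const.mul (Complex.reCLM.contDiff.comp h2))).pow 2

theorem cs_periodic (v l : C2) (hl : InLattice l) (z : C2) : cs v (z + l) = cs v z := by
  unfold cs ell
  obtain ⟨m, n, h⟩ := hl 0
  obtain ⟨m', n', h'⟩ := hl 1
  have e : ((z + l - v) 0 + 2 * (z + l - v) 1).re = ((z - v) 0 + 2 * (z - v) 1).re + ((m + 2 * m' : ℤ) : ℝ) := by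
    simp [h, h']; ring
  rw [e]
  have : Real.pi * (((z - v) 0 + 2 * (z - v) 1).re + ((m + 2 * m' : ℤ) : ℝ)) =
    Real.pi * ((z - v) 0 + 2 * (z - v) 1).re + (m + 2 * m' : ℤ) * Real.pi := by ring
  rw [this, Real.cos_add_int_mul_pi]
  rcases Int.even_or_odd (m + 2 * m') with h | h
  · rw [h.neg_one_zpow, one_mul]
  · rw [h.neg_one_zpow]; ring

theorem contDiff_thin (v p : C2) (δ : ℝ) (n : ℕ) : ContDiff ℝ ∞ (thin v p δ n) :=
  (contDiff_bump p δ).mul ((contDiff_cs v).pow n)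

theorem thin_periodic (v p : C2) (δ : ℝ) (n : ℕ) (l : C2) (hl : InLattice l) (z : C2) :
    thin v p δ n (z + l) = thin v p δ n z := by
  unfold thin; rw [bump_periodic p δ l hl, cs_periodic v l hl]

/-- The form `thin * kahler`. -/
noncomputable def thinForm (v p : C2) (δ : ℝ) (n : ℕ) : Form 2 :=
  ⟨fun z => thin v p δ n z • kahler, (contDiff_thin v p δ n).smul contDiff_const,
    fun l hl z => by simp only [thin_periodic v p δ n l hl]⟩

/-- near `z` the set `V` is the complex line `ell = ell z` -/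
def LineAt (V : Set C2) (z : C2) : Prop := ∃ N ∈ 𝓝 z, V ∩ N = {w ∈ N | ell w = ell z}

/-- translation of forms: `α (· + a)` -/
noncomputable def shift (a : C2) : Form 2 →ₗ[ℝ] Form 2 where
  toFun α := ⟨fun z => α.1 (z + a), α.2.1.comp (contDiff_id.add contDiff_const), fun l hl z => by
    show α.1 (z + l + a) = α.1 (z + a)
    rw [show z + l + a = z + a + l by abel]
    exact α.2.2 l hl _⟩
  map_add' _ _ := rfl
  map_smul' _ _ := rfl

/-- the tropical current with vertex moved to `a` -/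
noncomputable def tropAt (a : C2) : Form 2 →ₗ[ℝ] ℝ := trop.comp (shift a)

/-! ## Jobs -/

/-- LINE: a curve that contains a disc of a complex line of direction `dir 0` coincides with the
line near some point of the disc -/
def S_LINE : Prop := ∀ (U V : Set C2) (q : C2) (ρ : ℝ), IsOpen U → IsAnalyticIn U V →
  V ⊆ closure (regularPoints V) → 0 < ρ → (∀ ζ : ℂ, ‖ζ‖ < ρ → q + ζ • dir 0 ∈ V) →
  ∃ ζ : ℂ, ‖ζ‖ < ρ ∧ LineAt V (q + ζ • dir 0)

/-- DICH: near a regular point a curve is the line or meets the slabs in a null set -/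
def S_DICH : Prop := ∀ (V : Set C2) (v z₀ : C2), z₀ ∈ regularPoints V →
  LineAt V z₀ ∨ ∃ N ∈ 𝓝 z₀, area (V ∩ N ∩ {z | cs v z = 1}) = 0

/-- ZERO -/
def S_ZERO : Prop := ∀ (U V : Set C2) (v p : C2) (δ : ℝ), IsOpen U → IsAnalyticIn U V →
  (∀ z ∈ regularPoints V, D p z < δ → cs v z = 1 → ¬ LineAt V z) →
  Tendsto (fun n => integrationCurrent V (thinForm v p δ n).1) atTop (𝓝 0)

/-- LOW -/
def S_LOW : Prop := ∀ (U V : Set C2) (v z₀ : C2), IsOpen U → IsAnalyticIn U V → z₀ ∈ V →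
  LineAt V z₀ → cs v z₀ = 1 → ∃ ρ > 0, ∀ (p : C2) (δ : ℝ),
    (∀ z, D p z < δ → ∃ n, z - lat n ∈ Metric.ball z₀ ρ) → D p z₀ < δ →
    ∃ m > 0, ∀ n, m ≤ integrationCurrent V (thinForm v p δ n).1

/-- CUR -/
def S_CUR : Prop := ∀ (a : ℕ → C2) (w : ℕ → ℝ), (∀ k, 0 ≤ w k) → Summable w →
  ∃ c : Form 2 →ₗ[ℝ] ℝ, IsComplexCycle c ∧ ∀ α, HasSum (fun k => w k * tropAt (a k) α) (c α)

/-- SEQ -/
def S_SEQ : Prop := ∃ a : ℕ → C2,
  (∀ (x : C2) (r : ℝ), 0 < r → ∃ (k : ℕ) (y₁ y₂ : ℝ), ‖a k + im2 y₁ y₂ - x‖ < r) ∧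
  (∀ k l, k ≠ l → ∀ m : ℤ, (ell (a k - a l)).re ≠ m)

/-- ASYM, first part: translates without a piece in the slabs -/
def S_OFF : Prop := ∀ (a v p : C2) (δ : ℝ), (∀ m : ℤ, (ell (a - v)).re ≠ m) →
  Tendsto (fun n => tropAt a (thinForm v p δ n)) atTop (𝓝 0)

/-- ASYM, second part: the bump does not meet the first edge -/
def S_ON0 : Prop := ∀ (a v p : C2) (δ : ℝ),
  (∀ b c, ∀ t ∈ Icc (0 : ℝ) 1, δ ≤ D p (pt 0 b c t + a)) →
  Tendsto (fun n => tropAt a (thinForm v p δ n)) atTop (𝓝 0)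

/-- ASYM, third part: the bump meets the first edge, which lies in a slab -/
def S_ON1 : Prop := ∀ (a v p : C2) (δ : ℝ), (ell (a - v)).re = 0 →
  (∃ b ∈ Icc (0 : ℝ) 1, ∃ c ∈ Icc (0 : ℝ) 1, ∃ t ∈ Icc (0 : ℝ) 1, D p (pt 0 b c t + a) < δ) →
  ∃ m > 0, ∀ n, m ≤ tropAt a (thinForm v p δ n)

/-- ASYM, fourth part: bounds -/
def S_BD : Prop := ∀ (a v p : C2) (δ : ℝ) (n : ℕ), 0 ≤ tropAt a (thinForm v p δ n) ∧
  tropAt a (thinForm v p δ n) ≤ 15

end Pool.Agent.Y997.NW
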