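import Pool.Agent.Y997.NW.B3

set_option autoImplicit false

open MeasureTheory Set Topology Filter
open scoped ContDiff NNReal ENNReal

namespace Pool.Agent.Y997.NW.Tr

open Pool.Agent.W581 Pool.Agent.W581.Sullivan Pool.Agent.Y997.NW

theorem zero_cycle : IsComplexCycle gaussLattice (fun _ => (0 : ℝ)) := by
  refine ⟨⟨fun _ _ _ _ => by simp, fun _ _ _ => by simp, 0, 0, fun _ _ _ _ => by simp⟩,
    fun _ _ => rfl, fun n α _ ε hε => ⟨0, fun _ => 0, fun _ => 0, fun _ => 0, fun i => by simpa using hε⟩⟩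

/-- For every countable set of complex cycles on the torus there is a complex cycle `e` of mass at
most one that is nowhere an average and such that the sums of the given cycles and the positive
multiples of `e` are nowhere averages either. -/
theorem dense_final (hL : S_LINE) (hZ : S_ZERO) (hLow : S_LOW) (hC : S_CUR) (hS : S_SEQ)
    (hOff : S_OFF) (hOn0 : S_ON0) (hOn1 : S_ON1) (hBd : S_BD)
    (A : Set ((C2 → C2 [⋀^Fin 2]→L[ℝ] ℝ) → ℝ)) (hA : A.Countable)
    (h0 : ∀ c ∈ A, IsComplexCycle gaussLattice c) :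
    ∃ e : (C2 → C2 [⋀^Fin 2]→L[ℝ] ℝ) → ℝ, IsComplexCycle gaussLattice e ∧
      (∀ α, IsForm gaussLattice α → ∀ B : ℝ, (∀ z, ‖α z‖ ≤ B) → |e α| ≤ B) ∧
      (∀ U : Set C2, IsOpen U → IsPeriodicSet gaussLattice U → U.Nonempty →
        ¬ IsAverageOn gaussLattice unitCube U e) ∧
      ∀ c ∈ A, ∀ t : ℝ, 0 < t → IsComplexCycle gaussLattice (fun α => c α + t * e α) ∧
        ∀ U : Set C2, IsOpen U → IsPeriodicSet gaussLattice U → U.Nonempty →
          ¬ IsAverageOn gaussLattice unitCube U (fun α => c α + t * e α) := by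
  obtain ⟨f, hf⟩ := (hA.insert (fun _ => (0 : ℝ))).exists_eq_range (insert_nonempty _ _)
  have hfc : ∀ i, IsComplexCycle gaussLattice (f i) := by
    intro i
    have : f i ∈ insert (fun _ => (0 : ℝ)) A := by rw [hf]; exact ⟨i, rfl⟩
    rcases this with h | h
    · rw [h]; exact zero_cycle
    · exact h0 _ h
  obtain ⟨e, he, hb, hn⟩ := dense_main hL hZ hLow hC hS hOff hOn0 hOn1 hBd hfc
  refine ⟨e, he, hb, fun U hU hUp hne => ?_, fun c hc t ht => ?_⟩
  · obtain ⟨i, hi⟩ : (fun _ => (0 : ℝ)) ∈ range f := by rw [← hf]; exact mem_insert _ _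
    have h1 := (hn i 1 one_pos).2 U hU hUp hne
    have h2 : (fun α => f i α + 1 * e α) = e := by
      funext α
      rw [hi]; ring
    rwa [h2] at h1
  · obtain ⟨i, hi⟩ : c ∈ range f := by rw [← hf]; exact mem_insert_of_mem _ hc
    rw [← hi]
    exact hn i t ht

end Pool.Agent.Y997.NW.Tr
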