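import Pool.Agent.W581.Sullivan.Defs
import Pool.Agent.W581.Cyc.Bump

set_option autoImplicit false

open MeasureTheory Set Topology
open scoped ContDiff NNReal

/-! # Complex cycles on the torus `ℂ² / ℤ[i]²` that are nowhere averages

`Cyc.kahler` is the standard Kähler form `ω (x, y) = Im ⟨x, y⟩` of `ℂ²`, with `ω (e, i e) = |e|²`. All
other notions are those of `Pool/Agent/W581/Sullivan/Defs.lean`. -/

namespace Pool.Agent.Y997.NW.Tr

open Pool.Agent.W581 Pool.Agent.W581.Sullivan

/-- On the open subset `U` of the torus `ℂ² / ℤ[i]²` the mass measure (trace measure) of the current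
`c`, that is `g ↦ c (g ω)` with the Kähler form `ω`, is an average of area measures of irreducible
curves: for some measure `ν` on some σ-algebra on the set of irreducible closed analytic curves of
`U` one has `c (g ω) = ∫ [V] (g ω) dν(V)` for every smooth function `g` with compact support in
`U`. -/
def IsMassAverageOn (U : Set C2) (c : (C2 → C2 [⋀^Fin 2]→L[ℝ] ℝ) → ℝ) : Prop :=
  ∃ (_ : MeasurableSpace {V : Set C2 // IsIrreducibleCurve gaussLattice U V})
    (ν : Measure {V : Set C2 // IsIrreducibleCurve gaussLattice U V}),
    ∀ g : C2 → ℝ, ContDiff ℝ ∞ g → (∀ l ∈ gaussLattice, ∀ z, g (z + l) = g z) → tsupport g ⊆ U →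
      Integrable (fun V => integrationCurrent unitCube V.1 (fun z => g z • Cyc.kahler)) ν ∧
        c (fun z => g z • Cyc.kahler) =
          ∫ V, integrationCurrent unitCube V.1 (fun z => g z • Cyc.kahler) ∂ν

/-- `c` is nowhere an average: on no nonempty open subset `U` of the torus is `c` an average of
irreducible closed analytic curves, and not even the mass measure of `c` is an average of area
measures of such curves. -/
def NowhereAverage (c : (C2 → C2 [⋀^Fin 2]→L[ℝ] ℝ) → ℝ) : Prop :=
  ∀ U : Set C2, IsOpen U → IsPeriodicSet gaussLattice U → U.Nonempty →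
    ¬ IsAverageOn gaussLattice unitCube U c ∧ ¬ IsMassAverageOn U c

end Pool.Agent.Y997.NW.Tr
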