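import Pool.Agent.Y997.NW.C1
import Pool.Agent.Y997.NW.B4
import Pool.Agent.Y997.NW.Defs

set_option autoImplicit false

open MeasureTheory Set Topology Filter
open scoped ContDiff NNReal ENNReal

namespace Pool.Agent.Y997.NW

open Pool.Agent.W581.Cyc

/-- For countably many complex cycles there is one complex cycle `e` of mass at most one such that
all the sums with positive multiples of `e` are nowhere averages. -/
theorem dense_cyc_m (hL : S_LINE) (hZ : S_ZERO) (hLow : S_LOW) (hC : S_CUR) (hS : S_SEQ)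
    (hOff : S_OFF) (hOn0 : S_ON0) (hOn1 : S_ON1) (hBd : S_BD) {c : ℕ → Form 2 →ₗ[ℝ] ℝ}
    (h0 : ∀ i, IsComplexCycle (c i)) :
    ∃ e : Form 2 →ₗ[ℝ] ℝ, IsComplexCycle e ∧
      (∀ (α : Form 2) (B : ℝ), (∀ z, ‖α.1 z‖ ≤ B) → |e α| ≤ B) ∧
      ∀ (i : ℕ) (t : ℝ), 0 < t → IsComplexCycle (c i + t • e) ∧
        ∀ U : Set C2, IsOpen U → IsPeriodicSet U → U.Nonempty → ¬ MassAvg U (c i + t • e) := by
  obtain ⟨a, ha1, ha2, ha3⟩ := seq_avoid hS (countable_iUnion fun i => countable_slabs (h0 i))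
  have hw : ∀ k : ℕ, (0 : ℝ) < 1 / 30 * (1 / 2) ^ k := fun k => by positivity
  have hws : Summable fun k : ℕ => 1 / 30 * ((1 : ℝ) / 2) ^ k := summable_geometric_two.mul_left _
  have hwt : ∑' k : ℕ, 1 / 30 * ((1 : ℝ) / 2) ^ k = 1 / 15 := by
    rw [tsum_mul_left, tsum_geometric_two]; ring
  obtain ⟨e, he, hsum⟩ := hC a (fun k => 1 / 30 * (1 / 2) ^ k) (fun k => (hw k).le) hws
  refine ⟨e, he, fun α B hB => ?_, fun i t ht => ?_⟩
  · have h1 : ∀ k, ‖1 / 30 * (1 / 2) ^ k * tropAt (a k) α‖ ≤ 1 / 30 * (1 / 2) ^ k * (15 * B) := by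
      intro k
      rw [norm_mul, Real.norm_eq_abs, abs_of_pos (hw k)]
      exact mul_le_mul_of_nonneg_left (Pool.Agent.Y814.NW.tropAt_bd _ _ _ hB) (hw k).le
    have h2 := tsum_of_norm_bounded ((hws.hasSum).mul_right (15 * B)) h1
    rw [(hsum α).tsum_eq, hwt, Real.norm_eq_abs] at h2
    linarith
  · have hw' : ∀ k : ℕ, (0 : ℝ) < t * (1 / 30 * (1 / 2) ^ k) := fun k => mul_pos ht (hw k)
    have hws' : Summable fun k : ℕ => t * (1 / 30 * ((1 : ℝ) / 2) ^ k) := hws.mul_left _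
    obtain ⟨f, hf, hfs⟩ := hC a (fun k => t * (1 / 30 * (1 / 2) ^ k)) (fun k => (hw' k).le) hws'
    have hfe : f = t • e := by
      ext α
      rw [LinearMap.smul_apply, smul_eq_mul]
      refine (hfs α).unique ?_
      have := (hsum α).mul_left t
      simpa only [mul_assoc] using this
    rw [← hfe]
    refine ⟨Pool.Agent.Y997.NW.IsComplexCycle.add' (h0 i) hf, fun U hU hUp hne => ?_⟩
    refine nowhere_gen_m hL hZ hLow hOn1 ha1 hw' (fun k y₁ y₂ v hv p δ hp => ?_)
      (fun k v p δ n => ?_) hU hUp hne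
    · have h1 := tannery hOff hOn0 hBd ha2 hw' hws' hfs k hv p δ hp
      have h2 : Tendsto (fun n => c i (slab (ell v).re n)) atTop (𝓝 0) := by
        have h3 := ha3 k
        rw [mem_iUnion, not_exists] at h3
        have h3 := h3 i
        rw [Set.mem_ofPred_eq, not_not] at h3
        have : (ell v).re = (ell (a k)).re := by
          rw [hv, ell_add, Complex.add_re, ell_im2_re, add_zero]
        rw [this]; exact h3
      have h3 : Tendsto (fun n => c i (thinForm v p δ n)) atTop (𝓝 0) :=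
        squeeze_zero (fun n => thin_cycle_nonneg (h0 i) v p δ n)
          (fun n => thin_le_slab (h0 i) v p δ n) h2
      have h4 := h3.add h1
      rw [add_zero] at h4
      exact h4
    · rw [LinearMap.add_apply]
      have h1 : t * (1 / 30 * (1 / 2) ^ k) * tropAt (a k) (thinForm v p δ n) ≤
          f (thinForm v p δ n) :=
        le_hasSum (hfs (thinForm v p δ n)) k fun l _ => mul_nonneg (hw' l).le (hBd _ _ _ _ _).1
      have h2 := thin_cycle_nonneg (h0 i) v p δ n
      linarith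

end Pool.Agent.Y997.NW

namespace Pool.Agent.Y997.NW.Tr

open Pool.Agent.W581 Pool.Agent.W581.Sullivan Pool.Agent.Y997.NW

theorem isForm_smul {g : C2 → ℝ} (hg : ContDiff ℝ ∞ g)
    (hp : ∀ l ∈ gaussLattice, ∀ z, g (z + l) = g z) :
    IsForm gaussLattice (fun z => g z • Cyc.kahler) :=
  ⟨hg.smul contDiff_const, fun l hl z => by simp only [hp l hl]⟩

theorem tsupport_smul_le {g : C2 → ℝ} : tsupport (fun z => g z • Cyc.kahler) ⊆ tsupport g :=
  closure_mono fun z hz => by
    intro h0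
    apply hz
    show g z • Cyc.kahler = 0
    rw [h0, zero_smul]

theorem kahler_ne : Cyc.kahler ≠ 0 := by
  intro h
  have h1 := Cyc.kahler_apply (EuclideanSpace.single 0 1)
  rw [h] at h1
  simp at h1

theorem tsupport_smul_eq {g : C2 → ℝ} : tsupport (fun z => g z • Cyc.kahler) = tsupport g := by
  refine Subset.antisymm tsupport_smul_le (closure_mono fun z hz => ?_)
  intro h0
  apply hz
  have h1 : g z • Cyc.kahler = 0 := h0
  rcases smul_eq_zero.1 h1 with h | h
  · exact h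
  · exact absurd h kahler_ne

/-- an average is an average of masses -/
theorem IsAverage.mass {U : Set C2} {c : (C2 → C2 [⋀^Fin 2]→L[ℝ] ℝ) → ℝ}
    (h : IsAverageOn gaussLattice unitCube U c) : IsMassAverageOn U c := by
  obtain ⟨m, ν, hν⟩ := h
  exact ⟨m, ν, fun g hg hp hs => hν _ (isForm_smul hg hp) (tsupport_smul_le.trans hs)⟩

theorem ext_not_mass {U : Set C2} {c : Cyc.Form 2 →ₗ[ℝ] ℝ} (h0 : ¬ MassAvg U c)
    {d : (C2 → C2 [⋀^Fin 2]→L[ℝ] ℝ) → ℝ} (hd : ∀ α, IsForm gaussLattice α → d α = ext c α) :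
    ¬ IsMassAverageOn U d := by
  rintro ⟨mν, ν, hν⟩
  apply h0
  let φ : {V : Set C2 // IsIrreducibleCurve gaussLattice U V} →
      {V : Set C2 // Cyc.IsIrreducibleCurve U V} := fun V => ⟨V.1, (isIrreducible_iff U V.1).1 V.2⟩
  let ψ : {V : Set C2 // Cyc.IsIrreducibleCurve U V} →
      {V : Set C2 // IsIrreducibleCurve gaussLattice U V} :=
    fun V => ⟨V.1, (isIrreducible_iff U V.1).2 V.2⟩
  let m' : MeasurableSpace {V : Set C2 // Cyc.IsIrreducibleCurve U V} := mν.comap ψ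
  have hφψ : ∀ V, φ (ψ V) = V := fun V => rfl
  have hψφ : ∀ V, ψ (φ V) = V := fun V => rfl
  have hφ : Measurable φ := by
    rintro s ⟨t, ht, rfl⟩
    exact ht
  have hψ : Measurable ψ := comap_measurable ψ
  let e : {V : Set C2 // IsIrreducibleCurve gaussLattice U V} ≃ᵐ
      {V : Set C2 // Cyc.IsIrreducibleCurve U V} :=
    { toFun := φ, invFun := ψ, left_inv := hψφ, right_inv := hφψ,
      measurable_toFun := hφ, measurable_invFun := hψ }
  refine ⟨m', ν.map e, fun α hα hs => ?_⟩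
  obtain ⟨g, hg⟩ := hα
  have hgk : ∀ z, g z = α.1 z ![EuclideanSpace.single 0 1, Complex.I • EuclideanSpace.single 0 1] := by
    intro z
    rw [hg]
    show g z = (g z • Cyc.kahler) ![_, _]
    rw [ContinuousAlternatingMap.smul_apply, Cyc.kahler_apply]
    simp
  have hgc : ContDiff ℝ ∞ g := by
    have h1 : ContDiff ℝ ∞ fun z => (ContinuousAlternatingMap.apply ℝ C2 ℝ
        ![EuclideanSpace.single 0 1, Complex.I • EuclideanSpace.single 0 1]) (α.1 z) :=
      (ContinuousAlternatingMap.apply ℝ C2 ℝ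
        ![EuclideanSpace.single 0 1, Complex.I • EuclideanSpace.single 0 1]).contDiff.comp α.2.1
    have h2 : g = fun z => (ContinuousAlternatingMap.apply ℝ C2 ℝ
        ![EuclideanSpace.single 0 1, Complex.I • EuclideanSpace.single 0 1]) (α.1 z) :=
      funext hgk
    rw [h2]; exact h1
  have hgp : ∀ l ∈ gaussLattice, ∀ z, g (z + l) = g z := by
    intro l hl z
    rw [hgk, hgk, α.2.2 l hl z]
  have hgs : tsupport g ⊆ U := by
    rw [← tsupport_smul_eq, ← hg]; exact hs
  obtain ⟨h1, h2⟩ := hν g hgc hgp hgs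
  rw [← hg] at h1 h2
  have h3 : d α.1 = c α := by rw [hd _ α.2, ext_eq c α.2]
  refine ⟨?_, ?_⟩
  · rw [integrable_map_equiv]
    exact h1
  · rw [integral_map_equiv, ← h3, h2]
    rfl

theorem dense_mass (hL : S_LINE) (hZ : S_ZERO) (hLow : S_LOW) (hC : S_CUR) (hS : S_SEQ)
    (hOff : S_OFF) (hOn0 : S_ON0) (hOn1 : S_ON1) (hBd : S_BD)
    (A : Set ((C2 → C2 [⋀^Fin 2]→L[ℝ] ℝ) → ℝ)) (hA : A.Countable)
    (h0 : ∀ c ∈ A, IsComplexCycle gaussLattice c) :
    ∃ e : (C2 → C2 [⋀^Fin 2]→L[ℝ] ℝ) → ℝ, IsComplexCycle gaussLattice e ∧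
      (∀ α, IsForm gaussLattice α → ∀ B : ℝ, (∀ z, ‖α z‖ ≤ B) → |e α| ≤ B) ∧
      NowhereAverage e ∧
      ∀ c ∈ A, ∀ t : ℝ, 0 < t → IsComplexCycle gaussLattice (fun α => c α + t * e α) ∧
        NowhereAverage (fun α => c α + t * e α) := by
  obtain ⟨f, hf⟩ := (hA.insert (fun _ => (0 : ℝ))).exists_eq_range (insert_nonempty _ _)
  have hfc : ∀ i, IsComplexCycle gaussLattice (f i) := by
    intro i
    have : f i ∈ insert (fun _ => (0 : ℝ)) A := by rw [hf]; exact ⟨i, rfl⟩
    rcases this with h | h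
    · rw [h]; exact zero_cycle
    · exact h0 _ h
  obtain ⟨e, he, hb, hn⟩ := dense_cyc_m hL hZ hLow hC hS hOff hOn0 hOn1 hBd
    fun i => restr_cycle (hfc i)
  have key : ∀ (i : ℕ) (t : ℝ) (α), IsForm gaussLattice α →
      f i α + t * ext e α = ext (restr (f i) (hfc i) + t • e) α := by
    intro i t α hα
    rw [ext_eq _ hα, ext_eq _ hα]
    rfl
  have main : ∀ (i : ℕ) (t : ℝ), 0 < t →
      IsComplexCycle gaussLattice (fun α => f i α + t * ext e α) ∧
        NowhereAverage (fun α => f i α + t * ext e α) := by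
    intro i t ht
    obtain ⟨hce, hna⟩ := hn i t ht
    refine ⟨cycle_congr (ext_cycle hce) (key i t), fun U hU hUp hne => ?_⟩
    have h1 := ext_not_mass (hna U hU hUp hne) (key i t)
    exact ⟨fun h => h1 (IsAverage.mass h), h1⟩
  refine ⟨ext e, ext_cycle he, fun α hα B hB => ?_, ?_, fun c hc t ht => ?_⟩
  · rw [ext_eq _ hα]
    exact hb ⟨α, hα⟩ B hB
  · obtain ⟨i, hi⟩ : (fun _ => (0 : ℝ)) ∈ range f := by rw [← hf]; exact mem_insert _ _
    have h1 := (main i 1 one_pos).2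
    have h2 : (fun α => f i α + 1 * ext e α) = ext e := by
      funext α
      rw [hi]; ring
    rwa [h2] at h1
  · obtain ⟨i, hi⟩ : c ∈ range f := by rw [← hf]; exact mem_insert_of_mem _ hc
    rw [← hi]
    exact main i t ht

end Pool.Agent.Y997.NW.Tr
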