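import Pool.Agent.Y997.NW.Stm

set_option autoImplicit false

open MeasureTheory Set Topology Filter
open scoped ContDiff NNReal ENNReal

namespace Pool.Agent.Y997.NW

open Pool.Agent.W581.Cyc

theorem cs_nonneg (v z : C2) : 0 ≤ cs v z := sq_nonneg _

theorem cs_le_one (v z : C2) : cs v z ≤ 1 := Real.cos_sq_le_one _

theorem thin_nonneg (v p : C2) (δ : ℝ) (n : ℕ) (z : C2) : 0 ≤ thin v p δ n z :=
  mul_nonneg (bump_nonneg _ _ _) (pow_nonneg (cs_nonneg _ _) _)

theorem thin_le (v p : C2) (δ : ℝ) (n : ℕ) (z : C2) : thin v p δ n z ≤ thin v p δ 0 z := by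
  unfold thin
  rw [pow_zero]
  exact mul_le_mul_of_nonneg_left (pow_le_one₀ (cs_nonneg _ _) (cs_le_one _ _)) (bump_nonneg _ _ _)

/-- a form `g • kahler` -/
theorem tangentValue_smul {V : Set C2} {z : C2} (hz : z ∈ regularPoints V) (g : C2 → ℝ) :
    tangentValue V (fun z => g z • kahler) z = g z := by
  unfold tangentValue
  have h := exists_unitTangent hz
  rw [dif_pos h]
  show (g z • kahler) ![h.choose, Complex.I • h.choose] = g z
  rw [ContinuousAlternatingMap.smul_apply, kahler_apply, h.choose_spec.1]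
  simp

theorem integrationCurrent_smul (V : Set C2) (hm : MeasurableSet (regularPoints V ∩ unitCube))
    (g : C2 → ℝ) :
    integrationCurrent V (fun z => g z • kahler) = ∫ z in regularPoints V ∩ unitCube, g z ∂area := by
  unfold integrationCurrent
  exact setIntegral_congr_fun hm fun z hz => tangentValue_smul hz.1 g

theorem meas_reg {U V : Set C2} (hU : IsOpen U) (hV : IsAnalyticIn U V) :
    MeasurableSet (regularPoints V ∩ unitCube) :=
  (measurableSet_regularPoints hU hV).inter measurableSet_unitCube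

theorem ic_thin {U V : Set C2} (hU : IsOpen U) (hV : IsAnalyticIn U V) (v p : C2) (δ : ℝ) (n : ℕ) :
    integrationCurrent V (thinForm v p δ n).1 =
      ∫ z in regularPoints V ∩ unitCube, thin v p δ n z ∂area :=
  integrationCurrent_smul V (meas_reg hU hV) _

theorem ic_thin_nonneg {U V : Set C2} (hU : IsOpen U) (hV : IsAnalyticIn U V) (v p : C2) (δ : ℝ)
    (n : ℕ) : 0 ≤ integrationCurrent V (thinForm v p δ n).1 := by
  rw [ic_thin hU hV]
  exact integral_nonneg fun z => thin_nonneg v p δ n z

theorem ic_diff {U V : Set C2} (hU : IsOpen U) (hV : IsAnalyticIn U V) (v p : C2) (δ : ℝ) (n : ℕ) :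
    integrationCurrent V (thinForm v p δ 0 - thinForm v p δ n).1 =
      ∫ z in regularPoints V ∩ unitCube, (thin v p δ 0 z - thin v p δ n z) ∂area := by
  have : (thinForm v p δ 0 - thinForm v p δ n).1 =
      fun z => (thin v p δ 0 z - thin v p δ n z) • kahler := by
    funext z
    show thin v p δ 0 z • kahler - thin v p δ n z • kahler = _
    ext u
    simp only [ContinuousAlternatingMap.sub_apply, ContinuousAlternatingMap.smul_apply, smul_eq_mul]
    ring
  rw [this]
  exact integrationCurrent_smul V (meas_reg hU hV) _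

theorem ic_diff_nonneg {U V : Set C2} (hU : IsOpen U) (hV : IsAnalyticIn U V) (v p : C2) (δ : ℝ)
    (n : ℕ) : 0 ≤ integrationCurrent V (thinForm v p δ 0 - thinForm v p δ n).1 := by
  rw [ic_diff hU hV]
  exact integral_nonneg fun z => sub_nonneg.2 (thin_le v p δ n z)

theorem ic_subadd {U V : Set C2} (hU : IsOpen U) (hV : IsAnalyticIn U V) (v p : C2) (δ : ℝ)
    (n : ℕ) : integrationCurrent V (thinForm v p δ 0).1 ≤
      integrationCurrent V (thinForm v p δ n).1 +
        integrationCurrent V (thinForm v p δ 0 - thinForm v p δ n).1 := by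
  by_cases h : IntegrableOn (thin v p δ 0) (regularPoints V ∩ unitCube) area
  · have hn : IntegrableOn (thin v p δ n) (regularPoints V ∩ unitCube) area := by
      refine Integrable.mono' h (contDiff_thin v p δ n).continuous.aestronglyMeasurable ?_
      refine Eventually.of_forall fun z => ?_
      rw [Real.norm_eq_abs, abs_of_nonneg (thin_nonneg v p δ n z)]
      exact thin_le v p δ n z
    rw [ic_diff hU hV, ic_thin hU hV, ic_thin hU hV, integral_sub h hn]
    linarith
  · have h0 : integrationCurrent V (thinForm v p δ 0).1 = 0 := by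
      rw [ic_thin hU hV]
      exact integral_undef h
    rw [h0]
    exact add_nonneg (ic_thin_nonneg hU hV _ _ _ _) (ic_diff_nonneg hU hV _ _ _ _)

theorem tsupport_thinForm (v p : C2) (δ : ℝ) (n : ℕ) :
    tsupport (thinForm v p δ n).1 ⊆ {z | D p z ≤ δ} := by
  refine closure_minimal ?_ (isClosed_le (contDiff_D p).continuous continuous_const)
  intro z hz
  by_contra hc
  apply hz
  show thin v p δ n z • kahler = 0
  unfold thin
  rw [(bump_eq_zero_iff p δ z).2 (by simp at hc; linarith), zero_mul, zero_smul]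

theorem tsupport_diff (v p : C2) (δ : ℝ) (n : ℕ) :
    tsupport (thinForm v p δ 0 - thinForm v p δ n).1 ⊆ {z | D p z ≤ δ} := by
  refine closure_minimal ?_ (isClosed_le (contDiff_D p).continuous continuous_const)
  intro z hz
  by_contra hc
  apply hz
  show thin v p δ 0 z • kahler - thin v p δ n z • kahler = 0
  unfold thin
  rw [(bump_eq_zero_iff p δ z).2 (by simp at hc; linarith), zero_mul, zero_mul, zero_smul, sub_zero]

/-- In an average the thin bumps are almost everywhere dominated by the first one. -/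
theorem ae_dom {U : Set C2} (hU : IsOpen U) {c : Form 2 →ₗ[ℝ] ℝ}
    {_ : MeasurableSpace {V : Set C2 // IsIrreducibleCurve U V}}
    {ν : Measure {V : Set C2 // IsIrreducibleCurve U V}}
    (hν : ∀ α : Form 2, tsupport α.1 ⊆ U → Integrable (fun V => integrationCurrent V.1 α.1) ν ∧
        c α = ∫ V, integrationCurrent V.1 α.1 ∂ν)
    (v p : C2) (δ : ℝ) (hs : {z | D p z ≤ δ} ⊆ U) (n : ℕ) :
    ∀ᵐ V ∂ν, integrationCurrent V.1 (thinForm v p δ n).1 ≤
      integrationCurrent V.1 (thinForm v p δ 0).1 := by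
  obtain ⟨i0, e0⟩ := hν (thinForm v p δ 0) ((tsupport_thinForm _ _ _ _).trans hs)
  obtain ⟨i1, e1⟩ := hν (thinForm v p δ n) ((tsupport_thinForm _ _ _ _).trans hs)
  obtain ⟨i2, e2⟩ := hν (thinForm v p δ 0 - thinForm v p δ n) ((tsupport_diff _ _ _ _).trans hs)
  have i12 : Integrable (fun V : {V : Set C2 // IsIrreducibleCurve U V} =>
      integrationCurrent V.1 (thinForm v p δ n).1 +
        integrationCurrent V.1 (thinForm v p δ 0 - thinForm v p δ n).1) ν := i1.add i2
  have hi : Integrable (fun V : {V : Set C2 // IsIrreducibleCurve U V} =>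
      integrationCurrent V.1 (thinForm v p δ n).1 +
        integrationCurrent V.1 (thinForm v p δ 0 - thinForm v p δ n).1 -
        integrationCurrent V.1 (thinForm v p δ 0).1) ν := (i1.add i2).sub i0
  have hz : ∫ V, (integrationCurrent V.1 (thinForm v p δ n).1 +
        integrationCurrent V.1 (thinForm v p δ 0 - thinForm v p δ n).1 -
        integrationCurrent V.1 (thinForm v p δ 0).1) ∂ν = 0 := by
    rw [integral_sub i12 i0, integral_add i1 i2, ← e0, ← e1, ← e2]
    have h4 := c.map_add (thinForm v p δ 0 - thinForm v p δ n) (thinForm v p δ n)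
    rw [show thinForm v p δ 0 - thinForm v p δ n + thinForm v p δ n = thinForm v p δ 0 from
      Subtype.ext (sub_add_cancel _ _)] at h4
    linarith
  have := (integral_eq_zero_iff_of_nonneg
    (fun V => sub_nonneg.2 (ic_subadd hU V.2.analytic v p δ n)) hi).1 hz
  filter_upwards [this] with V hV
  have h1 : integrationCurrent V.1 (thinForm v p δ n).1 +
        integrationCurrent V.1 (thinForm v p δ 0 - thinForm v p δ n).1 -
        integrationCurrent V.1 (thinForm v p δ 0).1 = 0 := hV
  have h2 := ic_diff_nonneg hU V.2.analytic v p δ n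
  linarith

/-- positive side -/
theorem not_ae_tendsto {U : Set C2} (hU : IsOpen U) {c : Form 2 →ₗ[ℝ] ℝ}
    {_ : MeasurableSpace {V : Set C2 // IsIrreducibleCurve U V}}
    {ν : Measure {V : Set C2 // IsIrreducibleCurve U V}}
    (hν : ∀ α : Form 2, tsupport α.1 ⊆ U → Integrable (fun V => integrationCurrent V.1 α.1) ν ∧
        c α = ∫ V, integrationCurrent V.1 α.1 ∂ν)
    (v p : C2) (δ : ℝ) (hs : {z | D p z ≤ δ} ⊆ U) {m : ℝ} (hm : 0 < m)
    (hc : ∀ n, m ≤ c (thinForm v p δ n)) :
    ¬ ∀ᵐ V ∂ν, Tendsto (fun n => integrationCurrent V.1 (thinForm v p δ n).1) atTop (𝓝 0) := by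
  intro h
  have h1 : Tendsto (fun n => ∫ V, integrationCurrent V.1 (thinForm v p δ n).1 ∂ν) atTop
      (𝓝 (∫ _V, (0 : ℝ) ∂ν)) := by
    refine tendsto_integral_of_dominated_convergence
      (fun V => integrationCurrent V.1 (thinForm v p δ 0).1) (fun n => ?_) ?_ (fun n => ?_) h
    · exact (hν (thinForm v p δ n) ((tsupport_thinForm _ _ _ _).trans hs)).1.aestronglyMeasurable
    · exact (hν (thinForm v p δ 0) ((tsupport_thinForm _ _ _ _).trans hs)).1
    · filter_upwards [ae_dom hU hν v p δ hs n] with V hV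
      rw [Real.norm_eq_abs, abs_of_nonneg (ic_thin_nonneg hU V.2.analytic _ _ _ _)]
      exact hV
  rw [integral_zero] at h1
  have h2 : ∀ n, m ≤ ∫ V, integrationCurrent V.1 (thinForm v p δ n).1 ∂ν := by
    intro n
    rw [← (hν (thinForm v p δ n) ((tsupport_thinForm _ _ _ _).trans hs)).2]
    exact hc n
  have h3 := ge_of_tendsto' h1 h2
  linarith

/-- zero side -/
theorem ae_not_low {U : Set C2} (hU : IsOpen U) {c : Form 2 →ₗ[ℝ] ℝ}
    {_ : MeasurableSpace {V : Set C2 // IsIrreducibleCurve U V}}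
    {ν : Measure {V : Set C2 // IsIrreducibleCurve U V}}
    (hν : ∀ α : Form 2, tsupport α.1 ⊆ U → Integrable (fun V => integrationCurrent V.1 α.1) ν ∧
        c α = ∫ V, integrationCurrent V.1 α.1 ∂ν)
    (v p : C2) (δ : ℝ) (hs : {z | D p z ≤ δ} ⊆ U)
    (hc : Tendsto (fun n => c (thinForm v p δ n)) atTop (𝓝 0)) :
    ∀ᵐ V ∂ν, ¬ ∃ m > 0, ∀ n, m ≤ integrationCurrent V.1 (thinForm v p δ n).1 := by
  have key : ∀ k : ℕ, ν {V | ∀ n, 1 / (k + 1 : ℝ) ≤
      integrationCurrent V.1 (thinForm v p δ n).1} = 0 := by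
    intro k
    have hk : (0 : ℝ) < 1 / (k + 1 : ℝ) := by positivity
    have hle : ∀ n, ν {V | ∀ n, 1 / (k + 1 : ℝ) ≤ integrationCurrent V.1 (thinForm v p δ n).1} ≤
        ENNReal.ofReal (c (thinForm v p δ n) / (1 / (k + 1 : ℝ))) := by
      intro n
      obtain ⟨hi, he⟩ := hν (thinForm v p δ n) ((tsupport_thinForm _ _ _ _).trans hs)
      have h1 : ν {V | ∀ n, 1 / (k + 1 : ℝ) ≤ integrationCurrent V.1 (thinForm v p δ n).1} ≤
          ν {V | ENNReal.ofReal (1 / (k + 1 : ℝ)) ≤
            ENNReal.ofReal (integrationCurrent V.1 (thinForm v p δ n).1)} :=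
        measure_mono fun V hV => ENNReal.ofReal_le_ofReal (hV n)
      refine h1.trans ?_
      have h2 := meas_ge_le_lintegral_div (μ := ν)
        (f := fun V => ENNReal.ofReal (integrationCurrent V.1 (thinForm v p δ n).1))
        (hi.aestronglyMeasurable.aemeasurable.ennreal_ofReal)
        (ε := ENNReal.ofReal (1 / (k + 1 : ℝ))) (by simpa using hk) ENNReal.ofReal_ne_top
      refine h2.trans ?_
      rw [← ofReal_integral_eq_lintegral_ofReal hi
        (Eventually.of_forall fun V => ic_thin_nonneg hU V.2.analytic _ _ _ _), ← he,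
        ← ENNReal.ofReal_div_of_pos hk]
    have hlim : Tendsto (fun n => ENNReal.ofReal (c (thinForm v p δ n) / (1 / (k + 1 : ℝ)))) atTop
        (𝓝 0) := by
      have := (hc.div_const (1 / (k + 1 : ℝ)))
      rw [zero_div] at this
      have h2 := ENNReal.tendsto_ofReal this
      rwa [ENNReal.ofReal_zero] at h2
    exact le_antisymm (ge_of_tendsto' hlim hle) bot_le
  have hall : ∀ᵐ V ∂ν, ∀ k : ℕ, ¬ ∀ n, 1 / (k + 1 : ℝ) ≤
      integrationCurrent V.1 (thinForm v p δ n).1 := by
    rw [ae_all_iff]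
    intro k
    rw [ae_iff]
    simpa using key k
  filter_upwards [hall] with V hV
  rintro ⟨m, hm, h⟩
  obtain ⟨k, hk⟩ := exists_nat_one_div_lt hm
  exact hV k fun n => hk.le.trans (h n)

end Pool.Agent.Y997.NW
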