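import Pool.Agent.Y997.NW.A1

set_option autoImplicit false

open MeasureTheory Set Topology Filter
open scoped ContDiff NNReal ENNReal

namespace Pool.Agent.Y997.NW

open Pool.Agent.W581.Cyc

theorem ell_add (z w : C2) : ell (z + w) = ell z + ell w := by unfold ell; simp; ring

theorem ell_sub (z w : C2) : ell (z - w) = ell z - ell w := by unfold ell; simp; ring

theorem ell_neg (z : C2) : ell (-z) = -ell z := by unfold ell; simp; ring

theorem ell_smul (ζ : ℂ) (z : C2) : ell (ζ • z) = ζ * ell z := by unfold ell; simp; ring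

theorem ell_dir0 : ell (dir 0) = 0 := by unfold ell; simp [dir]

theorem ell_line (z : C2) (ζ : ℂ) : ell (z + ζ • dir 0) = ell z := by
  rw [ell_add, ell_smul, ell_dir0, mul_zero, add_zero]

theorem ell_im2_re (b c : ℝ) : (ell (im2 b c)).re = 0 := by
  unfold ell im2; simp

theorem cs_congr {v z w : C2} (h : ell z = ell w) : cs v z = cs v w := by
  unfold cs; rw [ell_sub, ell_sub, h]

theorem LineAt.add {V : Set C2} (hV : IsPeriodicSet V) {z l : C2} (hl : InLattice l)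
    (h : LineAt V z) : LineAt V (z + l) := by
  obtain ⟨N, hN, hVN⟩ := h
  have hc : ContinuousAt (fun w : C2 => w - l) (z + l) := by fun_prop
  refine ⟨(fun w => w - l) ⁻¹' N, hc (by simpa using hN), ?_⟩
  ext w
  have h1 : w - l ∈ V ↔ w ∈ V := by
    have := hV (-l) hl.neg w
    rwa [← sub_eq_add_neg] at this
  have h2 : (w - l ∈ V ∩ N) ↔ w - l ∈ {w ∈ N | ell w = ell z} := by rw [hVN]
  simp only [mem_inter_iff, mem_ofPred_eq, mem_preimage] at h2 ⊢
  rw [← h1, h2, ell_sub, ell_add]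
  constructor
  · rintro ⟨h3, h4⟩; exact ⟨h3, by linear_combination h4⟩
  · rintro ⟨h3, h4⟩; exact ⟨h3, by linear_combination h4⟩

/-- The curve goes on along the line beyond the vertex. -/
theorem cross (hL : S_LINE) {U V : Set C2} (hU : IsOpen U) (hV : IsAnalyticIn U V)
    (hpure : V ⊆ closure (regularPoints V)) {v : C2} {r s : ℝ} (hr : Metric.ball v r ⊆ U)
    (hs : 0 < s) (hsr : 10 * s ≤ r) {z : C2} (hz : LineAt V z)
    (hzp : ‖z - (v + s • dir 0)‖ < s / 10) :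
    ∃ w ∈ V, LineAt V w ∧ ell w = ell z ∧ ‖w - (v - s • dir 0)‖ < s / 5 := by
  have hd := norm_dir0
  have hd0 := norm_nonneg (dir 0)
  set A : Set ℂ := {ζ | z + ζ • dir 0 ∈ Metric.ball v r} with hA
  have hAc : Convex ℝ A := by
    intro x hx y hy a b ha hb hab
    have := convex_ball v r hx hy ha hb hab
    have e : z + (a • x + b • y) • dir 0 = a • (z + x • dir 0) + b • (z + y • dir 0) := by
      have hz' : z = a • z + b • z := by rw [← add_smul, hab, one_smul]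
      conv_lhs => rw [hz']
      rw [add_smul, smul_add, smul_add, smul_assoc, smul_assoc]
      abel
    show z + (a • x + b • y) • dir 0 ∈ Metric.ball v r
    rw [e]; exact this
  have hmem : ∀ ζ : ℂ, ‖ζ + (s : ℂ)‖ ≤ 2 * s → ζ ∈ A := by
    intro ζ hζ
    show z + ζ • dir 0 ∈ Metric.ball v r
    rw [Metric.mem_ball, dist_eq_norm]
    have e : z + ζ • dir 0 - v = (z - (v + s • dir 0)) + (ζ + (s : ℂ)) • dir 0 := by
      rw [add_smul, Complex.coe_smul]; abel
    rw [e]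
    calc _ ≤ ‖z - (v + s • dir 0)‖ + ‖(ζ + (s : ℂ)) • dir 0‖ := norm_add_le _ _
      _ < r := by
        rw [norm_smul]
        nlinarith [norm_nonneg (ζ + (s : ℂ))]
  have hz0 : (0 : ℂ) ∈ A := hmem 0 (by
    rw [zero_add, Complex.norm_real, Real.norm_eq_abs, abs_of_pos hs]; linarith)
  have hline : ∀ᶠ ζ : ℂ in 𝓝 0, z + ζ • dir 0 ∈ V := by
    obtain ⟨N, hN, hVN⟩ := hz
    have hc : ContinuousAt (fun ζ : ℂ => z + ζ • dir 0) 0 := by fun_prop
    have hN' : ∀ᶠ ζ : ℂ in 𝓝 0, z + ζ • dir 0 ∈ N := hc (by simpa using hN)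
    filter_upwards [hN'] with ζ hζ
    have : z + ζ • dir 0 ∈ {w ∈ N | ell w = ell z} := ⟨hζ, ell_line z ζ⟩
    rw [← hVN] at this
    exact this.1
  have hcont := line_continuation hV z (dir 0) hAc.isPreconnected (fun ζ hζ => hr hζ) hz0 hline
  set q : C2 := z + ((-2 * s : ℝ) : ℂ) • dir 0 with hq
  have hdisc : ∀ ζ : ℂ, ‖ζ‖ < s / 100 → q + ζ • dir 0 ∈ V := by
    intro ζ hζ
    have e : q + ζ • dir 0 = z + (((-2 * s : ℝ) : ℂ) + ζ) • dir 0 := by
      rw [hq, add_smul, add_assoc]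
    rw [e]
    refine hcont _ (hmem _ ?_)
    have e2 : ((-2 * s : ℝ) : ℂ) + ζ + (s : ℂ) = ((-s : ℝ) : ℂ) + ζ := by push_cast; ring
    rw [e2]
    calc _ ≤ ‖((-s : ℝ) : ℂ)‖ + ‖ζ‖ := norm_add_le _ _
      _ ≤ 2 * s := by
        rw [Complex.norm_real, Real.norm_eq_abs, abs_neg, abs_of_pos hs]; linarith
  obtain ⟨ζ, hζ, hLw⟩ := hL U V q (s / 100) hU hV hpure (by positivity) hdisc
  refine ⟨q + ζ • dir 0, hdisc ζ hζ, hLw, by rw [ell_line, hq, ell_line], ?_⟩
  have e : q + ζ • dir 0 - (v - s • dir 0) = (z - (v + s • dir 0)) + ζ • dir 0 := by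
    rw [hq, Complex.coe_smul]; module
  rw [e]
  calc _ ≤ ‖z - (v + s • dir 0)‖ + ‖ζ • dir 0‖ := norm_add_le _ _
    _ < s / 5 := by
      rw [norm_smul]
      nlinarith [norm_nonneg ζ]

/-- The first edge stays away from the points beyond the vertex. -/
theorem edge_far {a v : C2} {y₁ y₂ s : ℝ} (hv : v = a + im2 y₁ y₂) (hs : 0 < s)
    (hs1 : s ≤ 1 / 100) {u l : C2} (hl : InLattice l)
    (hu : ‖u - l - (v - s • dir 0)‖ < 3 * s / 10) {b c t : ℝ} (ht : t ∈ Icc (0 : ℝ) 1) :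
    u ≠ pt 0 b c t + a := by
  intro h
  have h1 : ‖(u - l - v) + s • dir 0‖ < 3 * s / 10 := by
    have : (u - l - v) + s • dir 0 = u - l - (v - s • dir 0) := by abel
    rwa [this]
  refine near_q hs hs1 h1 ⟨0, t, b - y₁, c - y₂, -l, ht, hl.neg, ?_⟩
  have e : im2 b c = im2 (b - y₁) (c - y₂) + im2 y₁ y₂ := by rw [← im2_add]; simp
  rw [h, hv]
  unfold pt
  rw [e]
  abel

/-- A dense centre and a radius. -/
theorem dense_center (w : C2) {ρ' : ℝ} (hρ'0 : 0 < ρ') : ∃ i n : ℕ,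
    D (TopologicalSpace.denseSeq C2 i) w < 1 / (n + 1 : ℝ) ∧
    ∀ z, D (TopologicalSpace.denseSeq C2 i) z ≤ 1 / (n + 1 : ℝ) →
      ∃ l, InLattice l ∧ z - l ∈ Metric.ball w ρ' := by
  obtain ⟨n, hn⟩ := exists_nat_one_div_lt (show 0 < ρ' ^ 2 by positivity)
  set δ : ℝ := 1 / (n + 1 : ℝ) with hδ
  have hδ0 : 0 < δ := by positivity
  have hη : 0 < min (ρ' / 2) (Real.sqrt δ / 4) := by positivity
  obtain ⟨k, hpk⟩ := (TopologicalSpace.denseRange_denseSeq C2).exists_dist_lt w hη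
  set p := TopologicalSpace.denseSeq C2 k
  have hp1 : ‖w - p‖ < ρ' / 2 := by rw [← dist_eq_norm]; exact hpk.trans_le (min_le_left _ _)
  have hp2 : ‖w - p‖ < Real.sqrt δ / 4 := by
    rw [← dist_eq_norm]; exact hpk.trans_le (min_le_right _ _)
  refine ⟨k, n, ?_, ?_⟩
  · have h1 := D_le p w
    have h2 : ‖w - p‖ ^ 2 < δ / 16 := by
      have h3 : ‖w - p‖ ^ 2 < (Real.sqrt δ / 4) ^ 2 := by
        apply pow_lt_pow_left₀ hp2 (norm_nonneg _) (by norm_num)
      rw [div_pow, Real.sq_sqrt hδ0.le] at h3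
      linarith
    have h4 : Real.pi ^ 2 < 16 := by nlinarith [Real.pi_lt_four, Real.pi_pos]
    have h5 : 0 ≤ ‖w - p‖ ^ 2 := sq_nonneg _
    nlinarith [sq_nonneg Real.pi]
  · intro z hz
    obtain ⟨l, hl, hle⟩ := exists_lattice_near p z
    refine ⟨l, hl, ?_⟩
    have h1 : ‖z - p - l‖ < ρ' / 2 := by
      have : ‖z - p - l‖ ^ 2 < (ρ' / 2) ^ 2 := by
        have : (ρ' / 2) ^ 2 = ρ' ^ 2 / 4 := by ring
        rw [this]; linarith
      exact lt_of_pow_lt_pow_left₀ 2 (by positivity) this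
    rw [Metric.mem_ball, dist_eq_norm]
    calc ‖z - l - w‖ = ‖(z - p - l) - (w - p)‖ := by congr 1; abel
      _ ≤ ‖z - p - l‖ + ‖w - p‖ := norm_sub_le _ _
      _ < ρ' := by linarith

/-- Tannery: the thin bumps off the first edge have small mass. -/
theorem tannery (hOff : S_OFF) (hOn0 : S_ON0) (hBd : S_BD) {a : ℕ → C2}
    (ha : ∀ k l, k ≠ l → ∀ m : ℤ, (ell (a k - a l)).re ≠ m) {w : ℕ → ℝ} (hw : ∀ k, 0 < w k)
    (hws : Summable w) {c : Form 2 →ₗ[ℝ] ℝ}
    (hc : ∀ α, HasSum (fun k => w k * tropAt (a k) α) (c α)) (k : ℕ) {y₁ y₂ : ℝ} {v : C2}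
    (hv : v = a k + im2 y₁ y₂) (p : C2) (δ : ℝ)
    (hp : ∀ b c, ∀ t ∈ Icc (0 : ℝ) 1, δ ≤ D p (pt 0 b c t + a k)) :
    Tendsto (fun n => c (thinForm v p δ n)) atTop (𝓝 0) := by
  have h1 : Tendsto (fun n : ℕ => ∑' l, w l * tropAt (a l) (thinForm v p δ n)) atTop
      (𝓝 (∑' _l : ℕ, (0 : ℝ))) := by
    refine tendsto_tsum_of_dominated_convergence (bound := fun l => w l * 15)
      (hws.mul_right 15) (fun l => ?_) (Eventually.of_forall fun n l => ?_)
    · have h2 : Tendsto (fun n => tropAt (a l) (thinForm v p δ n)) atTop (𝓝 0) := by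
        by_cases hlk : l = k
        · subst hlk
          exact hOn0 _ _ _ _ hp
        · refine hOff _ _ _ _ fun m => ?_
          have := ha l k hlk m
          rwa [hv, show a l - (a k + im2 y₁ y₂) = (a l - a k) - im2 y₁ y₂ by abel, ell_sub,
            Complex.sub_re, ell_im2_re, sub_zero]
      have := h2.const_mul (w l)
      rwa [mul_zero] at this
    · obtain ⟨h3, h4⟩ := hBd (a l) v p δ n
      rw [Real.norm_eq_abs, abs_of_nonneg (mul_nonneg (hw l).le h3)]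
      exact mul_le_mul_of_nonneg_left h4 (hw l).le
  rw [tsum_zero] at h1
  have h2 : (fun n => c (thinForm v p δ n)) =
      fun n : ℕ => ∑' l, w l * tropAt (a l) (thinForm v p δ n) := by
    funext n
    exact (hc _).tsum_eq.symm
  rw [h2]; exact h1

/-- The sum of the tropical currents is an average on no nonempty open set. -/
theorem nowhere (hL : S_LINE) (hZ : S_ZERO) (hLow : S_LOW) (hOff : S_OFF) (hOn0 : S_ON0)
    (hOn1 : S_ON1) (hBd : S_BD) {a : ℕ → C2}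
    (ha1 : ∀ (x : C2) (r : ℝ), 0 < r → ∃ (k : ℕ) (y₁ y₂ : ℝ), ‖a k + im2 y₁ y₂ - x‖ < r)
    (ha2 : ∀ k l, k ≠ l → ∀ m : ℤ, (ell (a k - a l)).re ≠ m) {w : ℕ → ℝ} (hw : ∀ k, 0 < w k)
    (hws : Summable w) {c : Form 2 →ₗ[ℝ] ℝ}
    (hc : ∀ α, HasSum (fun k => w k * tropAt (a k) α) (c α)) {U : Set C2} (hU : IsOpen U)
    (hUp : IsPeriodicSet U) (hne : U.Nonempty) : ¬ IsAverageOn U c := by
  rintro ⟨_, ν, hν⟩
  obtain ⟨x, hx⟩ := hne
  obtain ⟨r₀, hr00, hr0⟩ := Metric.isOpen_iff.1 hU x hx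
  obtain ⟨k, y₁, y₂, hk⟩ := ha1 x (r₀ / 2) (half_pos hr00)
  obtain ⟨v, hv⟩ : ∃ v, v = a k + im2 y₁ y₂ := ⟨_, rfl⟩
  rw [← hv] at hk
  set r := r₀ / 2 with hrdef
  have hr0' : 0 < r := half_pos hr00
  have hr : Metric.ball v r ⊆ U := by
    refine Subset.trans (fun z hz => ?_) hr0
    rw [Metric.mem_ball, dist_eq_norm] at hz ⊢
    calc ‖z - x‖ = ‖(z - v) + (v - x)‖ := by congr 1; abel
      _ ≤ ‖z - v‖ + ‖v - x‖ := norm_add_le _ _
      _ < r₀ := by linarith
  set s : ℝ := min (1 / 100) (r / 10) with hs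
  have hs0 : 0 < s := by positivity
  have hs1 : s ≤ 1 / 100 := min_le_left _ _
  have hsr : 10 * s ≤ r := by
    have := min_le_right (1 / 100 : ℝ) (r / 10)
    linarith
  have hd := norm_dir0
  have hd0 := norm_nonneg (dir 0)
  set p : C2 := v + s • dir 0 with hp
  set δ : ℝ := (s / 10) ^ 2 with hδ
  have hδ0 : 0 < δ := by positivity
  have hnear : ∀ z, D p z ≤ δ → ∃ l, InLattice l ∧ ‖z - l - p‖ < s / 10 := by
    intro z hz
    obtain ⟨l, hl, hle⟩ := exists_lattice_near p z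
    refine ⟨l, hl, ?_⟩
    have h1 : ‖z - p - l‖ < s / 10 := by
      have : ‖z - p - l‖ ^ 2 < (s / 10) ^ 2 := by
        nlinarith
      exact lt_of_pow_lt_pow_left₀ 2 (by positivity) this
    have : z - l - p = z - p - l := by abel
    rwa [this]
  have hsub : {z | D p z ≤ δ} ⊆ U := by
    intro z hz
    obtain ⟨l, hl, hzl⟩ := hnear z hz
    have h1 : z - l ∈ U := by
      apply hr
      rw [Metric.mem_ball, dist_eq_norm]
      calc ‖z - l - v‖ = ‖(z - l - p) + s • dir 0‖ := by congr 1; rw [hp]; abel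
        _ ≤ ‖z - l - p‖ + ‖s • dir 0‖ := norm_add_le _ _
        _ < r := by
          rw [norm_smul, Real.norm_eq_abs, abs_of_pos hs0]
          nlinarith
    have := hUp l hl (z - l)
    rw [sub_add_cancel] at this
    exact this.2 h1
  -- the mass near `p`
  have hre : (ell (a k - v)).re = 0 := by
    rw [hv, show a k - (a k + im2 y₁ y₂) = -im2 y₁ y₂ by abel, ell_neg, Complex.neg_re, ell_im2_re,
      neg_zero]
  have hlatt : InLattice (im2 (⌊y₁⌋ : ℝ) (⌊y₂⌋ : ℝ)) := by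
    intro j
    fin_cases j
    · exact ⟨0, ⌊y₁⌋, by simp [im2]⟩
    · exact ⟨0, ⌊y₂⌋, by simp [im2]⟩
  have hpt : pt 0 (Int.fract y₁) (Int.fract y₂) (3 * s) + a k + im2 (⌊y₁⌋ : ℝ) (⌊y₂⌋ : ℝ) = p := by
    have e : im2 y₁ y₂ = im2 (Int.fract y₁) (Int.fract y₂) + im2 (⌊y₁⌋ : ℝ) (⌊y₂⌋ : ℝ) := by
      rw [← im2_add]; simp
    unfold pt
    rw [hp, hv, e, show (3 * s / 3 : ℝ) = s by ring]
    abel
  obtain ⟨m, hm, hm'⟩ := hOn1 (a k) v p δ hre ⟨Int.fract y₁,
    ⟨Int.fract_nonneg _, (Int.fract_lt_one _).le⟩, Int.fract y₂,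
    ⟨Int.fract_nonneg _, (Int.fract_lt_one _).le⟩, 3 * s, ⟨by linarith, by linarith⟩, by
      rw [← D_periodic p _ hlatt, hpt]
      have : D p p ≤ 0 := by simpa using D_le p p
      linarith⟩
  have hlow : ∀ n, w k * m ≤ c (thinForm v p δ n) := by
    intro n
    refine (mul_le_mul_of_nonneg_left (hm' n) (hw k).le).trans ?_
    exact le_hasSum (hc (thinForm v p δ n)) k fun l _ => mul_nonneg (hw l).le (hBd _ _ _ _ _).1
  refine not_ae_tendsto hU hν v p δ hsub (mul_pos (hw k) hm) hlow ?_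
  -- the mass beyond the vertex
  let P : ℕ → ℕ → Prop := fun i n =>
    ({z | D (TopologicalSpace.denseSeq C2 i) z ≤ 1 / (n + 1 : ℝ)} ⊆ U ∧
      ∀ b c, ∀ t ∈ Icc (0 : ℝ) 1,
        1 / (n + 1 : ℝ) ≤ D (TopologicalSpace.denseSeq C2 i) (pt 0 b c t + a k))
  have hae : ∀ᵐ V ∂ν, ∀ i n, P i n → ¬ ∃ m > 0, ∀ N, m ≤
      integrationCurrent V.1 (thinForm v (TopologicalSpace.denseSeq C2 i) (1 / (n + 1 : ℝ)) N).1 := by
    rw [ae_all_iff]; intro i
    rw [ae_all_iff]; intro n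
    by_cases hP : P i n
    · have := ae_not_low hU hν v (TopologicalSpace.denseSeq C2 i) (1 / (n + 1 : ℝ)) hP.1
        (tannery hOff hOn0 hBd ha2 hw hws hc k hv _ _ hP.2)
      filter_upwards [this] with V hV _
      exact hV
    · exact Eventually.of_forall fun V h => absurd h hP
  filter_upwards [hae] with V hV
  refine hZ U V.1 v p δ hU V.2.analytic fun z hz hzD hzc hzL => ?_
  obtain ⟨l, hl, hzl⟩ := hnear z hzD.le
  have hz'L : LineAt V.1 (z - l) := by
    rw [sub_eq_add_neg]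
    exact hzL.add V.2.analytic.periodic hl.neg
  obtain ⟨q, hqV, hqL, hqe, hqd⟩ := cross hL hU V.2.analytic V.2.pure hr hs0 hsr hz'L hzl
  have hcs : cs v q = 1 := by
    rw [cs_congr hqe, sub_eq_add_neg, cs_periodic v (-l) hl.neg]; exact hzc
  obtain ⟨ρ, hρ, hint⟩ := hLow U V.1 v q hU V.2.analytic hqV hqL hcs
  have hρ' : 0 < min ρ (s / 20) := by positivity
  obtain ⟨i, n, hD, hnr⟩ := dense_center q hρ'
  refine hV i n ⟨?_, ?_⟩ (hint _ _ ?_ hD)
  · intro z hz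
    obtain ⟨l', hl', hzl'⟩ := hnr z hz
    have hzl2 : ‖z - l' - q‖ < s / 20 := by
      rw [← dist_eq_norm]; exact (Metric.mem_ball.1 hzl').trans_le (min_le_right _ _)
    have h1 : z - l' ∈ U := by
      apply hr
      rw [Metric.mem_ball, dist_eq_norm]
      calc ‖z - l' - v‖ = ‖(z - l' - q) + (q - (v - s • dir 0)) - s • dir 0‖ := by congr 1; abel
        _ ≤ ‖(z - l' - q) + (q - (v - s • dir 0))‖ + ‖s • dir 0‖ := norm_sub_le _ _
        _ ≤ ‖z - l' - q‖ + ‖q - (v - s • dir 0)‖ + ‖s • dir 0‖ := by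
          gcongr; exact norm_add_le _ _
        _ < r := by
          rw [norm_smul, Real.norm_eq_abs, abs_of_pos hs0]
          nlinarith
    have := hUp l' hl' (z - l')
    rw [sub_add_cancel] at this
    exact this.2 h1
  · intro b c' t ht
    by_contra hlt
    obtain ⟨l', hl', hzl'⟩ := hnr _ (not_le.1 hlt).le
    have hzl2 : ‖pt 0 b c' t + a k - l' - q‖ < s / 20 := by
      rw [← dist_eq_norm]; exact (Metric.mem_ball.1 hzl').trans_le (min_le_right _ _)
    refine edge_far (b := b) (c := c') hv hs0 hs1 hl' ?_ ht rfl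
    calc ‖pt 0 b c' t + a k - l' - (v - s • dir 0)‖
        = ‖(pt 0 b c' t + a k - l' - q) + (q - (v - s • dir 0))‖ := by congr 1; abel
      _ ≤ _ := norm_add_le _ _
      _ < 3 * s / 10 := by linarith
  · intro z hz
    obtain ⟨l', hl', hzl'⟩ := hnr z hz.le
    obtain ⟨m', rfl⟩ := hl'.exists_lat
    exact ⟨m', Metric.ball_subset_ball (min_le_left _ _) hzl'⟩

end Pool.Agent.Y997.NW
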