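import Pool.Agent.Y997.NW.A2
import Pool.Agent.W581.Sullivan.Main

set_option autoImplicit false

open MeasureTheory Set Topology Filter
open scoped ContDiff NNReal ENNReal

namespace Pool.Agent.Y997.NW.Tr

open Pool.Agent.W581 Pool.Agent.W581.Sullivan Pool.Agent.Y997.NW

open Classical in
/-- a current on the submodule of forms, as a functional on all functions -/
noncomputable def ext (c : Cyc.Form 2 →ₗ[ℝ] ℝ) (α : C2 → C2 [⋀^Fin 2]→L[ℝ] ℝ) : ℝ :=
  if h : α ∈ Cyc.Form 2 then c ⟨α, h⟩ else 0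

theorem ext_eq (c : Cyc.Form 2 →ₗ[ℝ] ℝ) {α : C2 → C2 [⋀^Fin 2]→L[ℝ] ℝ}
    (h : IsForm gaussLattice α) : ext c α = c ⟨α, h⟩ := dif_pos (show α ∈ Cyc.Form 2 from h)

theorem ext_cycle {c : Cyc.Form 2 →ₗ[ℝ] ℝ} (hc : Cyc.IsComplexCycle c) :
    IsComplexCycle gaussLattice (ext c) := by
  refine ⟨⟨?_, ?_, ?_⟩, ?_, ?_⟩
  · intro α β hα hβ
    have hab : IsForm gaussLattice (α + β) :=
      (Cyc.Form 2).add_mem (x := α) (y := β) hα hβ
    rw [ext_eq c hα, ext_eq c hβ, ext_eq c hab, ← LinearMap.map_add]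
    rfl
  · intro r α hα
    have hab : IsForm gaussLattice (r • α) := (Cyc.Form 2).smul_mem r (x := α) hα
    rw [ext_eq c hα, ext_eq c hab, ← smul_eq_mul, ← LinearMap.map_smul]
    rfl
  · obtain ⟨N, C, h⟩ := hc.current
    refine ⟨N, C, fun α hα B hB => ?_⟩
    rw [ext_eq c hα]
    exact h ⟨α, hα⟩ B hB
  · intro β hβ
    have h := extDeriv_isForm hβ
    rw [ext_eq c h]
    exact hc.closed ⟨β, hβ⟩ ⟨extDeriv β, h⟩ fun z => rfl
  · intro n α hα ε hε
    have hcl := hc.cone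
    rw [mem_closure_iff] at hcl
    obtain ⟨_, hd1, d, hd, rfl⟩ := hcl
      {v | ∀ i : Fin n, |c ⟨α i, hα i⟩ - v ⟨α i, hα i⟩| < ε} (by
        have : {v : Cyc.Form 2 → ℝ | ∀ i : Fin n, |c ⟨α i, hα i⟩ - v ⟨α i, hα i⟩| < ε} =
            ⋂ i : Fin n, {v | |c ⟨α i, hα i⟩ - v ⟨α i, hα i⟩| < ε} := by
          ext v; simp
        rw [this]
        refine isOpen_iInter_of_finite fun i => isOpen_lt ?_ continuous_const
        exact (continuous_const.sub (continuous_apply _)).abs) (by intro i; simpa using hε)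
    have key : ∀ d ∈ Submodule.span ℝ≥0 Cyc.diracCurrents,
        ∃ (m : ℕ) (a : Fin m → ℝ≥0) (z e : Fin m → C2), ∀ β : Cyc.Form 2,
          d β = ∑ j, a j * β.1 (z j) ![e j, Complex.I • e j] := by
      intro d hd
      induction hd using Submodule.span_induction with
      | mem x hx =>
        obtain ⟨z, m, a, e, h⟩ := hx
        exact ⟨m, a, fun _ => z, e, h⟩
      | zero => exact ⟨0, fun _ => 0, fun _ => 0, fun _ => 0, fun β => by simp⟩
      | add x y _ _ hx hy =>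
        obtain ⟨m, a, z, e, h⟩ := hx
        obtain ⟨m', a', z', e', h'⟩ := hy
        refine ⟨m + m', Fin.append a a', Fin.append z z', Fin.append e e', fun β => ?_⟩
        rw [LinearMap.add_apply, h, h', Fin.sum_univ_add]
        simp
      | smul r x _ hx =>
        obtain ⟨m, a, z, e, h⟩ := hx
        refine ⟨m, fun j => r * a j, z, e, fun β => ?_⟩
        have : (r • x) β = (r : ℝ) * x β := rfl
        rw [this, h, Finset.mul_sum]
        refine Finset.sum_congr rfl fun j _ => ?_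
        push_cast; ring
    obtain ⟨m, a, z, e, h⟩ := key d hd
    refine ⟨m, a, z, e, fun i => ?_⟩
    have := hd1 i
    simp only [h] at this
    rw [ext_eq c (hα i)]
    exact this

theorem ext_not_average {U : Set C2} {c : Cyc.Form 2 →ₗ[ℝ] ℝ} (h0 : ¬ Cyc.IsAverageOn U c) :
    ¬ IsAverageOn gaussLattice unitCube U (ext c) := by
  rintro ⟨mν, ν, hν⟩
  apply h0
  let φ : {V : Set C2 // IsIrreducibleCurve gaussLattice U V} →
      {V : Set C2 // Cyc.IsIrreducibleCurve U V} := fun V => ⟨V.1, (isIrreducible_iff U V.1).1 V.2⟩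
  let ψ : {V : Set C2 // Cyc.IsIrreducibleCurve U V} →
      {V : Set C2 // IsIrreducibleCurve gaussLattice U V} :=
    fun V => ⟨V.1, (isIrreducible_iff U V.1).2 V.2⟩
  let m' : MeasurableSpace {V : Set C2 // Cyc.IsIrreducibleCurve U V} := mν.comap ψ
  have hφψ : ∀ V, φ (ψ V) = V := fun V => rfl
  have hψφ : ∀ V, ψ (φ V) = V := fun V => rfl
  have hφ : Measurable φ := by
    rintro s ⟨t, ht, rfl⟩
    exact ht
  have hψ : Measurable ψ := comap_measurable ψ
  let e : {V : Set C2 // IsIrreducibleCurve gaussLattice U V} ≃ᵐ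
      {V : Set C2 // Cyc.IsIrreducibleCurve U V} :=
    { toFun := φ, invFun := ψ, left_inv := hψφ, right_inv := hφψ,
      measurable_toFun := hφ, measurable_invFun := hψ }
  refine ⟨m', ν.map e, fun α hα => ?_⟩
  obtain ⟨h1, h2⟩ := hν α.1 α.2 hα
  have h3 : ext c α.1 = c α := ext_eq c α.2
  refine ⟨?_, ?_⟩
  · rw [integrable_map_equiv]
    exact h1
  · rw [integral_map_equiv, ← h3, h2]
    rfl

/-- There is a complex cycle on the torus which is an average on no nonempty open set. -/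
theorem main (hL : S_LINE) (hZ : S_ZERO) (hLow : S_LOW) (hC : S_CUR) (hS : S_SEQ) (hOff : S_OFF)
    (hOn0 : S_ON0) (hOn1 : S_ON1) (hBd : S_BD) :
    ∃ c : (C2 → C2 [⋀^Fin 2]→L[ℝ] ℝ) → ℝ, IsComplexCycle gaussLattice c ∧
      ∀ U : Set C2, IsOpen U → IsPeriodicSet gaussLattice U → U.Nonempty →
        ¬ IsAverageOn gaussLattice unitCube U c := by
  obtain ⟨a, ha1, ha2⟩ := hS
  have hw : ∀ k : ℕ, (0 : ℝ) < (1 / 2) ^ k := fun k => by positivity
  have hws : Summable fun k : ℕ => ((1 : ℝ) / 2) ^ k := summable_geometric_two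
  obtain ⟨c, hc, hsum⟩ := hC a (fun k => (1 / 2) ^ k) (fun k => (hw k).le) hws
  exact ⟨ext c, ext_cycle hc, fun U hU hUp hne => ext_not_average
    (nowhere hL hZ hLow hOff hOn0 hOn1 hBd ha1 ha2 hw hws hsum hU hUp hne)⟩

end Pool.Agent.Y997.NW.Tr
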