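import Pool.Agent.Y997.NW.A2

set_option autoImplicit false

open MeasureTheory Set Topology Filter
open scoped ContDiff NNReal ENNReal

/-! # A complex cycle charges only countably many slabs -/

namespace Pool.Agent.Y997.NW

open Pool.Agent.W581.Cyc

/-- the form `g • kahler` -/
noncomputable def gForm (g : C2 → ℝ) (hg : ContDiff ℝ ∞ g)
    (hp : ∀ l, InLattice l → ∀ z, g (z + l) = g z) : Form 2 :=
  ⟨fun z => g z • kahler, hg.smul contDiff_const, fun l hl z => by simp only [hp l hl]⟩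

/-- a complex cycle is nonnegative on nonnegative multiples of the Kähler form -/
theorem cycle_nonneg {c : Form 2 →ₗ[ℝ] ℝ} (hc : IsComplexCycle c) (α : Form 2)
    (hα : ∀ z e : C2, 0 ≤ α.1 z ![e, Complex.I • e]) : 0 ≤ c α := by
  have hcl : IsClosed {f : Form 2 → ℝ | 0 ≤ f α} := isClosed_le continuous_const (continuous_apply α)
  refine (closure_minimal ?_ hcl) hc.cone
  rintro _ ⟨d, hd, rfl⟩
  show 0 ≤ d α
  induction hd using Submodule.span_induction with
  | mem x hx =>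
    obtain ⟨z, m, a, e, h⟩ := hx
    rw [h]
    exact Finset.sum_nonneg fun j _ => mul_nonneg (a j).2 (hα _ _)
  | zero => simp
  | add x y _ _ hx hy => exact add_nonneg hx hy
  | smul r x _ hx => exact mul_nonneg r.2 hx

theorem gForm_apply (g : C2 → ℝ) (hg : ContDiff ℝ ∞ g)
    (hp : ∀ l, InLattice l → ∀ z, g (z + l) = g z) (z e : C2) :
    (gForm g hg hp).1 z ![e, Complex.I • e] = g z * ‖e‖ ^ 2 := by
  show (g z • kahler) ![e, Complex.I • e] = _
  rw [ContinuousAlternatingMap.smul_apply, kahler_apply, smul_eq_mul]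

theorem cycle_mono {c : Form 2 →ₗ[ℝ] ℝ} (hc : IsComplexCycle c) {α β : Form 2}
    (h : ∀ z e : C2, α.1 z ![e, Complex.I • e] ≤ β.1 z ![e, Complex.I • e]) : c α ≤ c β := by
  have h1 := cycle_nonneg hc (β - α) fun z e => by
    show 0 ≤ β.1 z ![e, Complex.I • e] - α.1 z ![e, Complex.I • e]
    linarith [h z e]
  have h4 := c.map_add (β - α) α
  rw [show β - α + α = β from Subtype.ext (sub_add_cancel _ _)] at h4
  linarith

/-- the real point with first coordinate `x` -/
noncomputable def rp (x : ℝ) : C2 := WithLp.toLp 2 ![(x : ℂ), 0]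

theorem ell_rp (x : ℝ) : ell (rp x) = x := by unfold ell rp; simp

theorem cs_eq (v z : C2) : cs v z = Real.cos (Real.pi * ((ell z).re - (ell v).re)) ^ 2 := by
  unfold cs; rw [ell_sub, Complex.sub_re]

theorem cs_rp (v z : C2) : cs v z = cs (rp (ell v).re) z := by
  rw [cs_eq, cs_eq, ell_rp, Complex.ofReal_re]

/-- the slab form -/
noncomputable def slab (x : ℝ) (n : ℕ) : Form 2 :=
  gForm (fun z => cs (rp x) z ^ n) ((contDiff_cs _).pow n) fun l hl z => by
    simp only [cs_periodic _ l hl]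

theorem slab_nonneg {c : Form 2 →ₗ[ℝ] ℝ} (hc : IsComplexCycle c) (x : ℝ) (n : ℕ) :
    0 ≤ c (slab x n) :=
  cycle_nonneg hc _ fun z e => by
    unfold slab
    rw [gForm_apply]
    exact mul_nonneg (pow_nonneg (cs_nonneg _ _) _) (sq_nonneg _)

theorem slab_antitone {c : Form 2 →ₗ[ℝ] ℝ} (hc : IsComplexCycle c) (x : ℝ) :
    Antitone fun n => c (slab x n) := by
  intro n m hnm
  refine cycle_mono hc fun z e => ?_
  unfold slab
  rw [gForm_apply, gForm_apply]
  exact mul_le_mul_of_nonneg_right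
    (pow_le_pow_of_le_one (cs_nonneg _ _) (cs_le_one _ _) hnm) (sq_nonneg _)

theorem thinForm_apply (v p : C2) (δ : ℝ) (n : ℕ) (z e : C2) :
    (thinForm v p δ n).1 z ![e, Complex.I • e] = thin v p δ n z * ‖e‖ ^ 2 := by
  show (thin v p δ n z • kahler) ![e, Complex.I • e] = _
  rw [ContinuousAlternatingMap.smul_apply, kahler_apply, smul_eq_mul]

theorem thin_le_slab {c : Form 2 →ₗ[ℝ] ℝ} (hc : IsComplexCycle c) (v p : C2) (δ : ℝ) (n : ℕ) :
    c (thinForm v p δ n) ≤ c (slab (ell v).re n) := by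
  refine cycle_mono hc fun z e => ?_
  unfold slab
  rw [gForm_apply, thinForm_apply, ← cs_rp]
  refine mul_le_mul_of_nonneg_right ?_ (sq_nonneg _)
  exact mul_le_of_le_one_left (pow_nonneg (cs_nonneg _ _) _) (bump_le_one _ _ _)

theorem thin_cycle_nonneg {c : Form 2 →ₗ[ℝ] ℝ} (hc : IsComplexCycle c) (v p : C2) (δ : ℝ) (n : ℕ) :
    0 ≤ c (thinForm v p δ n) :=
  cycle_nonneg hc _ fun z e => by
    rw [thinForm_apply]
    exact mul_nonneg (thin_nonneg _ _ _ _ _) (sq_nonneg _)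

/-- two different slabs -/
theorem two_slabs {x y : ℝ} (hx : x ∈ Ico (0 : ℝ) 1) (hy : y ∈ Ico (0 : ℝ) 1) (hxy : x ≠ y) :
    ∃ q : ℝ, 0 ≤ q ∧ q < 1 ∧ ∀ z : C2, cs (rp x) z * cs (rp y) z ≤ q := by
  set d : ℝ := |Real.cos (Real.pi * (x - y))| with hd
  have hd0 : 0 ≤ d := abs_nonneg _
  have hd1 : d < 1 := by
    have hlt : Real.cos (Real.pi * (x - y)) ^ 2 < 1 := by
      have hs : Real.sin (Real.pi * (x - y)) ≠ 0 := by
        intro h
        rw [Real.sin_eq_zero_iff] at h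
        obtain ⟨n, hn⟩ := h
        have h1 : (n : ℝ) = x - y := by
          have := Real.pi_ne_zero
          field_simp at hn
          exact hn
        have h2 : (-1 : ℝ) < n := by rw [h1]; linarith [hx.1, hy.2]
        have h3 : (n : ℝ) < 1 := by rw [h1]; linarith [hx.2, hy.1]
        have h4 : n = 0 := int_zero_of h2 h3
        rw [h4, Int.cast_zero] at h1
        exact hxy (by linarith)
      have h5 := Real.sin_sq_add_cos_sq (Real.pi * (x - y))
      have h6 : 0 < Real.sin (Real.pi * (x - y)) ^ 2 := by positivity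
      linarith
    have : d ^ 2 < 1 := by rw [hd, sq_abs]; exact hlt
    nlinarith
  refine ⟨((1 + d) / 2) ^ 2, by positivity, by nlinarith, fun z => ?_⟩
  rw [cs_eq, cs_eq, ell_rp, ell_rp, Complex.ofReal_re, Complex.ofReal_re, ← mul_pow]
  set A := Real.pi * ((ell z).re - x)
  set B := Real.pi * ((ell z).re - y)
  have h1 : Real.cos A * Real.cos B = (Real.cos (A - B) + Real.cos (A + B)) / 2 := by
    rw [Real.cos_sub, Real.cos_add]; ring
  have h2 : |Real.cos (A - B)| = d := by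
    have : A - B = -(Real.pi * (x - y)) := by simp only [A, B]; ring
    rw [this, Real.cos_neg]
  have h3 : |Real.cos A * Real.cos B| ≤ (1 + d) / 2 := by
    rw [h1, abs_div, abs_of_pos (show (0 : ℝ) < 2 by norm_num)]
    have h4 := abs_add_le (Real.cos (A - B)) (Real.cos (A + B))
    have h5 := Real.abs_cos_le_one (A + B)
    rw [h2] at h4
    linarith
  calc (Real.cos A * Real.cos B) ^ 2 = |Real.cos A * Real.cos B| ^ 2 := (sq_abs _).symm
    _ ≤ _ := pow_le_pow_left₀ (abs_nonneg _) h3 2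

/-- finitely many different slabs nearly do not overlap -/
theorem slabs_sum (F : Finset (Ico (0 : ℝ) 1)) :
    ∃ n : ℕ, ∀ z : C2, ∑ x ∈ F, cs (rp (x : ℝ)) z ^ n ≤ 2 := by
  classical
  have hq : ∀ P : (Ico (0 : ℝ) 1) × (Ico (0 : ℝ) 1), ∃ q : ℝ, 0 ≤ q ∧ q < 1 ∧
      (P.1 ≠ P.2 → ∀ z : C2, cs (rp (P.1 : ℝ)) z * cs (rp (P.2 : ℝ)) z ≤ q) := by
    intro P
    by_cases h : P.1 = P.2
    · exact ⟨0, le_rfl, one_pos, fun h' => absurd h h'⟩
    · obtain ⟨q, h0, h1, h2⟩ := two_slabs P.1.2 P.2.2 fun h' => h (Subtype.ext h')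
      exact ⟨q, h0, h1, fun _ => h2⟩
  choose q hq0 hq1 hq2 using hq
  have hlim : Tendsto (fun n : ℕ => ∑ P ∈ F.offDiag, q P ^ n) atTop (𝓝 0) := by
    have := tendsto_finsetSum (f := fun (P : (Ico (0 : ℝ) 1) × (Ico (0 : ℝ) 1)) (n : ℕ) => q P ^ n)
      F.offDiag fun P _ => tendsto_pow_atTop_nhds_zero_of_lt_one (hq0 P) (hq1 P)
    simpa using this
  obtain ⟨n, hn⟩ := (hlim.eventually (gt_mem_nhds (show (0 : ℝ) < 1 by norm_num))).exists
  refine ⟨n, fun z => ?_⟩
  set S : ℝ := ∑ x ∈ F, cs (rp (x : ℝ)) z ^ n with hS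
  have hsq : S * S ≤ S + 1 := by
    rw [hS, Finset.sum_mul_sum, ← Finset.sum_product', ← Finset.diag_union_offDiag,
      Finset.sum_union (Finset.disjoint_diag_offDiag F), Finset.sum_diag]
    refine add_le_add ?_ ?_
    · refine Finset.sum_le_sum fun x _ => ?_
      exact mul_le_of_le_one_left (pow_nonneg (cs_nonneg _ _) _)
        (pow_le_one₀ (cs_nonneg _ _) (cs_le_one _ _))
    · refine le_trans (Finset.sum_le_sum fun P hP => ?_) hn.le
      rw [← mul_pow]
      exact pow_le_pow_left₀ (mul_nonneg (cs_nonneg _ _) (cs_nonneg _ _))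
        (hq2 P (Finset.mem_offDiag.1 hP).2.2 z) n
  by_contra hlt
  push Not at hlt
  nlinarith

theorem slab_sum_le {c : Form 2 →ₗ[ℝ] ℝ} (hc : IsComplexCycle c) (F : Finset (Ico (0 : ℝ) 1)) :
    ∑ x ∈ F, (⨅ n, c (slab (x : ℝ) n)) ≤ 2 * c (slab 0 0) := by
  obtain ⟨n, hn⟩ := slabs_sum F
  have h1 : ∑ x ∈ F, (⨅ n, c (slab (x : ℝ) n)) ≤ ∑ x ∈ F, c (slab (x : ℝ) n) :=
    Finset.sum_le_sum fun x _ => ciInf_le ⟨0, by rintro _ ⟨m, rfl⟩; exact slab_nonneg hc _ _⟩ n
  refine h1.trans ?_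
  rw [← map_sum]
  have h2 : (2 : ℝ) * c (slab 0 0) = c ((2 : ℝ) • slab 0 0) := by rw [map_smul, smul_eq_mul]
  rw [h2]
  refine cycle_mono hc fun z e => ?_
  have h3 : (∑ x ∈ F, slab (x : ℝ) n : Form 2).1 z ![e, Complex.I • e] =
      ∑ x ∈ F, cs (rp (x : ℝ)) z ^ n * ‖e‖ ^ 2 := by
    rw [Submodule.coe_sum, Finset.sum_apply]
    have : ∀ (s : Finset (Ico (0 : ℝ) 1)), (∑ x ∈ s, (slab (x : ℝ) n).1 z) ![e, Complex.I • e] =
        ∑ x ∈ s, cs (rp (x : ℝ)) z ^ n * ‖e‖ ^ 2 := by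
      intro s
      classical
      induction s using Finset.induction_on with
      | empty => simp
      | insert x s hx ih =>
        rw [Finset.sum_insert hx, Finset.sum_insert hx, ContinuousAlternatingMap.add_apply, ih]
        congr 1
        exact gForm_apply _ _ _ _ _
    exact this F
  have h4 : ((2 : ℝ) • slab 0 0 : Form 2).1 z ![e, Complex.I • e] = 2 * ‖e‖ ^ 2 := by
    show (2 : ℝ) * (slab 0 0).1 z ![e, Complex.I • e] = _
    unfold slab
    rw [gForm_apply, pow_zero, one_mul]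
  rw [h3, h4, ← Finset.sum_mul]
  exact mul_le_mul_of_nonneg_right (hn z) (sq_nonneg _)

theorem slab_int (x : ℝ) (m : ℤ) (n : ℕ) : slab (x - m) n = slab x n := by
  have h : ∀ z, cs (rp (x - m)) z = cs (rp x) z := by
    intro z
    rw [cs_eq, cs_eq, ell_rp, ell_rp, Complex.ofReal_re, Complex.ofReal_re]
    have : Real.pi * ((ell z).re - (x - m)) = Real.pi * ((ell z).re - x) + m * Real.pi := by ring
    rw [this, Real.cos_add_int_mul_pi]
    rcases Int.even_or_odd m with h | h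
    · rw [h.neg_one_zpow, one_mul]
    · rw [h.neg_one_zpow]; ring
  refine Subtype.ext ?_
  funext z
  show cs (rp (x - m)) z ^ n • kahler = cs (rp x) z ^ n • kahler
  rw [h]

/-- A complex cycle charges only countably many slabs. -/
theorem countable_slabs {c : Form 2 →ₗ[ℝ] ℝ} (hc : IsComplexCycle c) :
    {x : ℝ | ¬ Tendsto (fun n => c (slab x n)) atTop (𝓝 0)}.Countable := by
  have hsum : Summable fun x : Ico (0 : ℝ) 1 => ⨅ n, c (slab (x : ℝ) n) :=
    summable_of_sum_le (fun x => le_ciInf fun n => slab_nonneg hc _ _) fun F => slab_sum_le hc F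
  have hcount := hsum.countable_support
  have hlim : ∀ x : ℝ, Tendsto (fun n => c (slab x n)) atTop (𝓝 (⨅ n, c (slab x n))) := fun x =>
    tendsto_atTop_ciInf (slab_antitone hc x) ⟨0, by rintro _ ⟨m, rfl⟩; exact slab_nonneg hc _ _⟩
  have hsub : {x : ℝ | ¬ Tendsto (fun n => c (slab x n)) atTop (𝓝 0)} ⊆
      ⋃ m : ℤ, (fun y : ℝ => y + m) '' (Subtype.val ''
        (Function.support fun x : Ico (0 : ℝ) 1 => ⨅ n, c (slab (x : ℝ) n))) := by
    intro x hx
    refine mem_iUnion.2 ⟨⌊x⌋, x - ⌊x⌋, ⟨⟨x - ⌊x⌋, ?_, ?_⟩, ?_, rfl⟩, by simp⟩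
    · linarith [Int.floor_le x]
    · linarith [Int.lt_floor_add_one x]
    · rw [Function.mem_support]
      intro h0
      apply hx
      have h1 := hlim (x - ⌊x⌋)
      simp only [slab_int] at h1 h0
      rw [h0] at h1
      exact h1
  refine Countable.mono hsub ?_
  exact countable_iUnion fun m => (hcount.image _).image _

end Pool.Agent.Y997.NW
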