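import Pool.Agent.Y997.NW.B1

set_option autoImplicit false

open MeasureTheory Set Topology Filter
open scoped ContDiff NNReal ENNReal

namespace Pool.Agent.Y997.NW

open Pool.Agent.W581.Cyc

/-- the sequence can avoid a countable set of slabs -/
theorem seq_avoid (hS : S_SEQ) {C : Set ℝ} (hC : C.Countable) : ∃ a : ℕ → C2,
    (∀ (x : C2) (r : ℝ), 0 < r → ∃ (k : ℕ) (y₁ y₂ : ℝ), ‖a k + im2 y₁ y₂ - x‖ < r) ∧
    (∀ k l, k ≠ l → ∀ m : ℤ, (ell (a k - a l)).re ≠ m) ∧ ∀ k, (ell (a k)).re ∉ C := by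
  obtain ⟨a, ha1, ha2⟩ := hS
  have hcount : (⋃ k : ℕ, (fun y : ℝ => y - (ell (a k)).re) '' C).Countable :=
    countable_iUnion fun k => hC.image _
  obtain ⟨τ, hτ⟩ : ∃ τ : ℝ, τ ∉ ⋃ k : ℕ, (fun y : ℝ => y - (ell (a k)).re) '' C := by
    by_contra h
    push Not at h
    have : (univ : Set ℝ).Countable := hcount.mono fun x _ => h x
    exact not_countable_univ this
  refine ⟨fun k => a k + rp τ, fun x r hr => ?_, fun k l hkl m => ?_, fun k hk => ?_⟩
  · obtain ⟨k, y₁, y₂, h⟩ := ha1 (x - rp τ) r hr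
    refine ⟨k, y₁, y₂, ?_⟩
    have e : a k + rp τ + im2 y₁ y₂ - x = a k + im2 y₁ y₂ - (x - rp τ) := by abel
    rwa [e]
  · rw [show a k + rp τ - (a l + rp τ) = a k - a l by abel]
    exact ha2 k l hkl m
  · apply hτ
    refine mem_iUnion.2 ⟨k, _, hk, ?_⟩
    rw [ell_add, ell_rp, Complex.add_re, Complex.ofReal_re]
    ring

/-- General form: what the current must satisfy to be nowhere an average. -/
theorem nowhere_gen (hL : S_LINE) (hZ : S_ZERO) (hLow : S_LOW) (hOn1 : S_ON1) {a : ℕ → C2}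
    (ha1 : ∀ (x : C2) (r : ℝ), 0 < r → ∃ (k : ℕ) (y₁ y₂ : ℝ), ‖a k + im2 y₁ y₂ - x‖ < r)
    {w : ℕ → ℝ} (hw : ∀ k, 0 < w k) {c : Form 2 →ₗ[ℝ] ℝ}
    (H1 : ∀ (k : ℕ) (y₁ y₂ : ℝ) (v : C2), v = a k + im2 y₁ y₂ → ∀ (p : C2) (δ : ℝ),
      (∀ b c, ∀ t ∈ Icc (0 : ℝ) 1, δ ≤ D p (pt 0 b c t + a k)) →
      Tendsto (fun n => c (thinForm v p δ n)) atTop (𝓝 0))
    (H2 : ∀ (k : ℕ) (v p : C2) (δ : ℝ) (n : ℕ),
      w k * tropAt (a k) (thinForm v p δ n) ≤ c (thinForm v p δ n))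
    {U : Set C2} (hU : IsOpen U)
    (hUp : IsPeriodicSet U) (hne : U.Nonempty) : ¬ IsAverageOn U c := by
  rintro ⟨_, ν, hν⟩
  obtain ⟨x, hx⟩ := hne
  obtain ⟨r₀, hr00, hr0⟩ := Metric.isOpen_iff.1 hU x hx
  obtain ⟨k, y₁, y₂, hk⟩ := ha1 x (r₀ / 2) (half_pos hr00)
  obtain ⟨v, hv⟩ : ∃ v, v = a k + im2 y₁ y₂ := ⟨_, rfl⟩
  rw [← hv] at hk
  set r := r₀ / 2 with hrdef
  have hr0' : 0 < r := half_pos hr00
  have hr : Metric.ball v r ⊆ U := by
    refine Subset.trans (fun z hz => ?_) hr0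
    rw [Metric.mem_ball, dist_eq_norm] at hz ⊢
    calc ‖z - x‖ = ‖(z - v) + (v - x)‖ := by congr 1; abel
      _ ≤ ‖z - v‖ + ‖v - x‖ := norm_add_le _ _
      _ < r₀ := by linarith
  set s : ℝ := min (1 / 100) (r / 10) with hs
  have hs0 : 0 < s := by positivity
  have hs1 : s ≤ 1 / 100 := min_le_left _ _
  have hsr : 10 * s ≤ r := by
    have := min_le_right (1 / 100 : ℝ) (r / 10)
    linarith
  have hd := norm_dir0
  have hd0 := norm_nonneg (dir 0)
  set p : C2 := v + s • dir 0 with hp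
  set δ : ℝ := (s / 10) ^ 2 with hδ
  have hδ0 : 0 < δ := by positivity
  have hnear : ∀ z, D p z ≤ δ → ∃ l, InLattice l ∧ ‖z - l - p‖ < s / 10 := by
    intro z hz
    obtain ⟨l, hl, hle⟩ := exists_lattice_near p z
    refine ⟨l, hl, ?_⟩
    have h1 : ‖z - p - l‖ < s / 10 := by
      have : ‖z - p - l‖ ^ 2 < (s / 10) ^ 2 := by
        nlinarith
      exact lt_of_pow_lt_pow_left₀ 2 (by positivity) this
    have : z - l - p = z - p - l := by abel
    rwa [this]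
  have hsub : {z | D p z ≤ δ} ⊆ U := by
    intro z hz
    obtain ⟨l, hl, hzl⟩ := hnear z hz
    have h1 : z - l ∈ U := by
      apply hr
      rw [Metric.mem_ball, dist_eq_norm]
      calc ‖z - l - v‖ = ‖(z - l - p) + s • dir 0‖ := by congr 1; rw [hp]; abel
        _ ≤ ‖z - l - p‖ + ‖s • dir 0‖ := norm_add_le _ _
        _ < r := by
          rw [norm_smul, Real.norm_eq_abs, abs_of_pos hs0]
          nlinarith
    have := hUp l hl (z - l)
    rw [sub_add_cancel] at this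
    exact this.2 h1
  have hre : (ell (a k - v)).re = 0 := by
    rw [hv, show a k - (a k + im2 y₁ y₂) = -im2 y₁ y₂ by abel, ell_neg, Complex.neg_re, ell_im2_re,
      neg_zero]
  have hlatt : InLattice (im2 (⌊y₁⌋ : ℝ) (⌊y₂⌋ : ℝ)) := by
    intro j
    fin_cases j
    · exact ⟨0, ⌊y₁⌋, by simp [im2]⟩
    · exact ⟨0, ⌊y₂⌋, by simp [im2]⟩
  have hpt : pt 0 (Int.fract y₁) (Int.fract y₂) (3 * s) + a k + im2 (⌊y₁⌋ : ℝ) (⌊y₂⌋ : ℝ) = p := by
    have e : im2 y₁ y₂ = im2 (Int.fract y₁) (Int.fract y₂) + im2 (⌊y₁⌋ : ℝ) (⌊y₂⌋ : ℝ) := by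
      rw [← im2_add]; simp
    unfold pt
    rw [hp, hv, e, show (3 * s / 3 : ℝ) = s by ring]
    abel
  obtain ⟨m, hm, hm'⟩ := hOn1 (a k) v p δ hre ⟨Int.fract y₁,
    ⟨Int.fract_nonneg _, (Int.fract_lt_one _).le⟩, Int.fract y₂,
    ⟨Int.fract_nonneg _, (Int.fract_lt_one _).le⟩, 3 * s, ⟨by linarith, by linarith⟩, by
      rw [← D_periodic p _ hlatt, hpt]
      have : D p p ≤ 0 := by simpa using D_le p p
      linarith⟩
  have hlow : ∀ n, w k * m ≤ c (thinForm v p δ n) := fun n =>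
    (mul_le_mul_of_nonneg_left (hm' n) (hw k).le).trans (H2 k v p δ n)
  refine not_ae_tendsto hU hν v p δ hsub (mul_pos (hw k) hm) hlow ?_
  let P : ℕ → ℕ → Prop := fun i n =>
    ({z | D (TopologicalSpace.denseSeq C2 i) z ≤ 1 / (n + 1 : ℝ)} ⊆ U ∧
      ∀ b c, ∀ t ∈ Icc (0 : ℝ) 1,
        1 / (n + 1 : ℝ) ≤ D (TopologicalSpace.denseSeq C2 i) (pt 0 b c t + a k))
  have hae : ∀ᵐ V ∂ν, ∀ i n, P i n → ¬ ∃ m > 0, ∀ N, m ≤
      integrationCurrent V.1 (thinForm v (TopologicalSpace.denseSeq C2 i) (1 / (n + 1 : ℝ)) N).1 := by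
    rw [ae_all_iff]; intro i
    rw [ae_all_iff]; intro n
    by_cases hP : P i n
    · have := ae_not_low hU hν v (TopologicalSpace.denseSeq C2 i) (1 / (n + 1 : ℝ)) hP.1
        (H1 k y₁ y₂ v hv _ _ hP.2)
      filter_upwards [this] with V hV _
      exact hV
    · exact Eventually.of_forall fun V h => absurd h hP
  filter_upwards [hae] with V hV
  refine hZ U V.1 v p δ hU V.2.analytic fun z hz hzD hzc hzL => ?_
  obtain ⟨l, hl, hzl⟩ := hnear z hzD.le
  have hz'L : LineAt V.1 (z - l) := by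
    rw [sub_eq_add_neg]
    exact hzL.add V.2.analytic.periodic hl.neg
  obtain ⟨q, hqV, hqL, hqe, hqd⟩ := cross hL hU V.2.analytic V.2.pure hr hs0 hsr hz'L hzl
  have hcs : cs v q = 1 := by
    rw [cs_congr hqe, sub_eq_add_neg, cs_periodic v (-l) hl.neg]; exact hzc
  obtain ⟨ρ, hρ, hint⟩ := hLow U V.1 v q hU V.2.analytic hqV hqL hcs
  have hρ' : 0 < min ρ (s / 20) := by positivity
  obtain ⟨i, n, hD, hnr⟩ := dense_center q hρ'
  refine hV i n ⟨?_, ?_⟩ (hint _ _ ?_ hD)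
  · intro z hz
    obtain ⟨l', hl', hzl'⟩ := hnr z hz
    have hzl2 : ‖z - l' - q‖ < s / 20 := by
      rw [← dist_eq_norm]; exact (Metric.mem_ball.1 hzl').trans_le (min_le_right _ _)
    have h1 : z - l' ∈ U := by
      apply hr
      rw [Metric.mem_ball, dist_eq_norm]
      calc ‖z - l' - v‖ = ‖(z - l' - q) + (q - (v - s • dir 0)) - s • dir 0‖ := by congr 1; abel
        _ ≤ ‖(z - l' - q) + (q - (v - s • dir 0))‖ + ‖s • dir 0‖ := norm_sub_le _ _
        _ ≤ ‖z - l' - q‖ + ‖q - (v - s • dir 0)‖ + ‖s • dir 0‖ := by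
          gcongr; exact norm_add_le _ _
        _ < r := by
          rw [norm_smul, Real.norm_eq_abs, abs_of_pos hs0]
          nlinarith
    have := hUp l' hl' (z - l')
    rw [sub_add_cancel] at this
    exact this.2 h1
  · intro b c' t ht
    by_contra hlt
    obtain ⟨l', hl', hzl'⟩ := hnr _ (not_le.1 hlt).le
    have hzl2 : ‖pt 0 b c' t + a k - l' - q‖ < s / 20 := by
      rw [← dist_eq_norm]; exact (Metric.mem_ball.1 hzl').trans_le (min_le_right _ _)
    refine edge_far (b := b) (c := c') hv hs0 hs1 hl' ?_ ht rfl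
    calc ‖pt 0 b c' t + a k - l' - (v - s • dir 0)‖
        = ‖(pt 0 b c' t + a k - l' - q) + (q - (v - s • dir 0))‖ := by congr 1; abel
      _ ≤ _ := norm_add_le _ _
      _ < 3 * s / 10 := by linarith
  · intro z hz
    obtain ⟨l', hl', hzl'⟩ := hnr z hz.le
    obtain ⟨m', rfl⟩ := hl'.exists_lat
    exact ⟨m', Metric.ball_subset_ball (min_le_left _ _) hzl'⟩

/-- the sum of two complex cycles is a complex cycle -/
theorem IsComplexCycle.add' {c d : Form 2 →ₗ[ℝ] ℝ} (hc : IsComplexCycle c)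
    (hd : IsComplexCycle d) : IsComplexCycle (c + d) := by
  refine ⟨?_, fun β α h => ?_, ?_⟩
  · obtain ⟨N, C, h⟩ := hc.current
    obtain ⟨N', C', h'⟩ := hd.current
    refine ⟨max N N', C + C', fun α B hB => ?_⟩
    rw [LinearMap.add_apply]
    have h1 := h α B fun j hj z => hB j (hj.trans (le_max_left _ _)) z
    have h2 := h' α B fun j hj z => hB j (hj.trans (le_max_right _ _)) z
    have h3 := abs_add_le (c α) (d α)
    linarith
  · rw [LinearMap.add_apply, hc.closed β α h, hd.closed β α h, add_zero]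
  · let Φ : (Form 2 →ₗ[ℝ] ℝ) →+ (Form 2 → ℝ) :=
      { toFun := fun d α => d α
        map_zero' := rfl
        map_add' := fun _ _ => rfl }
    let K : AddSubmonoid (Form 2 → ℝ) :=
      (Submodule.span ℝ≥0 diracCurrents).toAddSubmonoid.map Φ
    have hK : (K : Set (Form 2 → ℝ)) = (fun (d : Form 2 →ₗ[ℝ] ℝ) (α : Form 2) => d α) ''
        (Submodule.span ℝ≥0 diracCurrents : Set _) := rfl
    have h1 : (fun α => c α) ∈ K.topologicalClosure := by
      have := hc.cone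
      rw [← hK] at this
      exact this
    have h2 : (fun α => d α) ∈ K.topologicalClosure := by
      have := hd.cone
      rw [← hK] at this
      exact this
    have h3 := K.topologicalClosure.add_mem h1 h2
    rw [← hK]
    exact h3

end Pool.Agent.Y997.NW
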