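import Pool.Agent.Y997.NW.B2
import Pool.Agent.Y997.NW.A3
import Pool.Agent.Y814.NW.CUR

set_option autoImplicit false

open MeasureTheory Set Topology Filter
open scoped ContDiff NNReal ENNReal

namespace Pool.Agent.Y997.NW

open Pool.Agent.W581.Cyc

/-- For countably many complex cycles there is one complex cycle `e` of mass at most one such that
all the sums with positive multiples of `e` are nowhere averages. -/
theorem dense_cyc (hL : S_LINE) (hZ : S_ZERO) (hLow : S_LOW) (hC : S_CUR) (hS : S_SEQ)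
    (hOff : S_OFF) (hOn0 : S_ON0) (hOn1 : S_ON1) (hBd : S_BD) {c : ℕ → Form 2 →ₗ[ℝ] ℝ}
    (h0 : ∀ i, IsComplexCycle (c i)) :
    ∃ e : Form 2 →ₗ[ℝ] ℝ, IsComplexCycle e ∧
      (∀ (α : Form 2) (B : ℝ), (∀ z, ‖α.1 z‖ ≤ B) → |e α| ≤ B) ∧
      ∀ (i : ℕ) (t : ℝ), 0 < t → IsComplexCycle (c i + t • e) ∧
        ∀ U : Set C2, IsOpen U → IsPeriodicSet U → U.Nonempty → ¬ IsAverageOn U (c i + t • e) := by
  obtain ⟨a, ha1, ha2, ha3⟩ := seq_avoid hS (countable_iUnion fun i => countable_slabs (h0 i))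
  have hw : ∀ k : ℕ, (0 : ℝ) < 1 / 30 * (1 / 2) ^ k := fun k => by positivity
  have hws : Summable fun k : ℕ => 1 / 30 * ((1 : ℝ) / 2) ^ k := summable_geometric_two.mul_left _
  have hwt : ∑' k : ℕ, 1 / 30 * ((1 : ℝ) / 2) ^ k = 1 / 15 := by
    rw [tsum_mul_left, tsum_geometric_two]; ring
  obtain ⟨e, he, hsum⟩ := hC a (fun k => 1 / 30 * (1 / 2) ^ k) (fun k => (hw k).le) hws
  refine ⟨e, he, fun α B hB => ?_, fun i t ht => ?_⟩
  · have h1 : ∀ k, ‖1 / 30 * (1 / 2) ^ k * tropAt (a k) α‖ ≤ 1 / 30 * (1 / 2) ^ k * (15 * B) := by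
      intro k
      rw [norm_mul, Real.norm_eq_abs, abs_of_pos (hw k)]
      exact mul_le_mul_of_nonneg_left (Pool.Agent.Y814.NW.tropAt_bd _ _ _ hB) (hw k).le
    have h2 := tsum_of_norm_bounded ((hws.hasSum).mul_right (15 * B)) h1
    rw [(hsum α).tsum_eq, hwt, Real.norm_eq_abs] at h2
    linarith
  · have hw' : ∀ k : ℕ, (0 : ℝ) < t * (1 / 30 * (1 / 2) ^ k) := fun k => mul_pos ht (hw k)
    have hws' : Summable fun k : ℕ => t * (1 / 30 * ((1 : ℝ) / 2) ^ k) := hws.mul_left _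
    obtain ⟨f, hf, hfs⟩ := hC a (fun k => t * (1 / 30 * (1 / 2) ^ k)) (fun k => (hw' k).le) hws'
    have hfe : f = t • e := by
      ext α
      rw [LinearMap.smul_apply, smul_eq_mul]
      refine (hfs α).unique ?_
      have := (hsum α).mul_left t
      simpa only [mul_assoc] using this
    rw [← hfe]
    refine ⟨Pool.Agent.Y997.NW.IsComplexCycle.add' (h0 i) hf, fun U hU hUp hne => ?_⟩
    refine nowhere_gen hL hZ hLow hOn1 ha1 hw' (fun k y₁ y₂ v hv p δ hp => ?_)
      (fun k v p δ n => ?_) hU hUp hne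
    · have h1 := tannery hOff hOn0 hBd ha2 hw' hws' hfs k hv p δ hp
      have h2 : Tendsto (fun n => c i (slab (ell v).re n)) atTop (𝓝 0) := by
        have h3 := ha3 k
        rw [mem_iUnion, not_exists] at h3
        have h3 := h3 i
        rw [Set.mem_ofPred_eq, not_not] at h3
        have : (ell v).re = (ell (a k)).re := by
          rw [hv, ell_add, Complex.add_re, ell_im2_re, add_zero]
        rw [this]; exact h3
      have h3 : Tendsto (fun n => c i (thinForm v p δ n)) atTop (𝓝 0) :=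
        squeeze_zero (fun n => thin_cycle_nonneg (h0 i) v p δ n)
          (fun n => thin_le_slab (h0 i) v p δ n) h2
      have h4 := h3.add h1
      rw [add_zero] at h4
      exact h4
    · rw [LinearMap.add_apply]
      have h1 : t * (1 / 30 * (1 / 2) ^ k) * tropAt (a k) (thinForm v p δ n) ≤
          f (thinForm v p δ n) :=
        le_hasSum (hfs (thinForm v p δ n)) k fun l _ => mul_nonneg (hw' l).le (hBd _ _ _ _ _).1
      have h2 := thin_cycle_nonneg (h0 i) v p δ n
      linarith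

end Pool.Agent.Y997.NW

namespace Pool.Agent.Y997.NW.Tr

open Pool.Agent.W581 Pool.Agent.W581.Sullivan Pool.Agent.Y997.NW

/-- a complex cycle as a linear functional on the submodule of forms -/
noncomputable def restr (c : (C2 → C2 [⋀^Fin 2]→L[ℝ] ℝ) → ℝ) (hc : IsComplexCycle gaussLattice c) :
    Cyc.Form 2 →ₗ[ℝ] ℝ where
  toFun α := c α.1
  map_add' α β := hc.current.add α.1 β.1 α.2 β.2
  map_smul' r α := hc.current.smul r α.1 α.2

theorem restr_cycle {c : (C2 → C2 [⋀^Fin 2]→L[ℝ] ℝ) → ℝ} (hc : IsComplexCycle gaussLattice c) :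
    Cyc.IsComplexCycle (restr c hc) := by
  refine ⟨?_, fun β α h => ?_, ?_⟩
  · obtain ⟨N, C, h⟩ := hc.current.continuous
    exact ⟨N, C, fun α B hB => h α.1 α.2 B hB⟩
  · show c α.1 = 0
    rw [show α.1 = extDeriv β.1 from funext h]
    exact hc.closed β.1 β.2
  · rw [mem_closure_iff]
    intro o ho hco
    obtain ⟨I, u, hu, hIu⟩ := isOpen_pi_iff.1 ho _ hco
    have hε : ∀ i : I, ∃ ε > 0, Metric.ball (c i.1.1) ε ⊆ u i.1 := fun i =>
      Metric.isOpen_iff.1 (hu i.1 i.2).1 _ (hu i.1 i.2).2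
    choose ε hε0 hεu using hε
    obtain ⟨η, hη0, hη⟩ : ∃ η > 0, ∀ i, η ≤ ε i := by
      by_cases hI : Nonempty I
      · refine ⟨Finset.univ.inf' (Finset.univ_nonempty) ε, ?_, fun i =>
          Finset.inf'_le _ (Finset.mem_univ i)⟩
        exact (Finset.lt_inf'_iff _).2 fun i _ => hε0 i
      · exact ⟨1, one_pos, fun i => absurd ⟨i⟩ hI⟩
    let eq := I.equivFin
    obtain ⟨m, a, z, e, h⟩ := hc.cone I.card (fun j => (eq.symm j).1.1)
      (fun j => (eq.symm j).1.2) η hη0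
    refine ⟨fun α => (∑ j, a j • Cyc.diracC (z j) (e j) : Cyc.Form 2 →ₗ[ℝ] ℝ) α,
      hIu fun i hi => ?_, _, Submodule.sum_mem _ fun j _ =>
        Submodule.smul_mem _ _ (Submodule.subset_span (Cyc.diracC_mem _ _)), rfl⟩
    apply hεu ⟨i, hi⟩
    have h1 := h (eq ⟨i, hi⟩)
    simp only [Equiv.symm_apply_apply] at h1
    rw [Metric.mem_ball, dist_comm, Real.dist_eq]
    have h2 : (∑ j, a j • Cyc.diracC (z j) (e j) : Cyc.Form 2 →ₗ[ℝ] ℝ) i =
        ∑ j, a j * i.1 (z j) ![e j, Complex.I • e j] := by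
      rw [LinearMap.sum_apply]
      rfl
    rw [h2]
    exact h1.trans_le (hη _)

/-- a functional that agrees on forms with a complex cycle is a complex cycle -/
theorem cycle_congr {c d : (C2 → C2 [⋀^Fin 2]→L[ℝ] ℝ) → ℝ} (h1 : IsComplexCycle gaussLattice d)
    (key : ∀ α, IsForm gaussLattice α → c α = d α) : IsComplexCycle gaussLattice c := by
  refine ⟨⟨fun α β hα hβ => ?_, fun r α hα => ?_, ?_⟩, fun β hβ => ?_, fun n α hα ε hε => ?_⟩
  · have hab : IsForm gaussLattice (α + β) :=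
      (Cyc.Form 2).add_mem (x := α) (y := β) hα hβ
    rw [key _ hab, key _ hα, key _ hβ]
    exact h1.current.add α β hα hβ
  · have hab : IsForm gaussLattice (r • α) := (Cyc.Form 2).smul_mem r (x := α) hα
    rw [key _ hab, key _ hα]
    exact h1.current.smul r α hα
  · obtain ⟨N, C, h⟩ := h1.current.continuous
    refine ⟨N, C, fun α hα B hB => ?_⟩
    rw [key _ hα]
    exact h α hα B hB
  · rw [key _ (extDeriv_isForm hβ)]
    exact h1.closed β hβ
  · obtain ⟨m, a, z, v, h⟩ := h1.cone n α hα ε hε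
    refine ⟨m, a, z, v, fun i => ?_⟩
    have := h i
    rw [← key _ (hα i)] at this
    exact this

/-- For countably many complex cycles on the torus there is one complex cycle `e` of mass at most
one such that all the sums with positive multiples of `e` are nowhere averages. -/
theorem dense_main (hL : S_LINE) (hZ : S_ZERO) (hLow : S_LOW) (hC : S_CUR) (hS : S_SEQ)
    (hOff : S_OFF) (hOn0 : S_ON0) (hOn1 : S_ON1) (hBd : S_BD)
    {c : ℕ → (C2 → C2 [⋀^Fin 2]→L[ℝ] ℝ) → ℝ} (h0 : ∀ i, IsComplexCycle gaussLattice (c i)) :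
    ∃ e : (C2 → C2 [⋀^Fin 2]→L[ℝ] ℝ) → ℝ, IsComplexCycle gaussLattice e ∧
      (∀ α, IsForm gaussLattice α → ∀ B : ℝ, (∀ z, ‖α z‖ ≤ B) → |e α| ≤ B) ∧
      ∀ (i : ℕ) (t : ℝ), 0 < t → IsComplexCycle gaussLattice (fun α => c i α + t * e α) ∧
        ∀ U : Set C2, IsOpen U → IsPeriodicSet gaussLattice U → U.Nonempty →
          ¬ IsAverageOn gaussLattice unitCube U (fun α => c i α + t * e α) := by
  obtain ⟨e, he, hb, hn⟩ := dense_cyc hL hZ hLow hC hS hOff hOn0 hOn1 hBd
    fun i => restr_cycle (h0 i)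
  refine ⟨ext e, ext_cycle he, fun α hα B hB => ?_, fun i t ht => ?_⟩
  · rw [ext_eq _ hα]
    exact hb ⟨α, hα⟩ B hB
  · have key : ∀ α, IsForm gaussLattice α →
        c i α + t * ext e α = ext (restr (c i) (h0 i) + t • e) α := by
      intro α hα
      rw [ext_eq _ hα, ext_eq _ hα]
      rfl
    obtain ⟨hce, hna⟩ := hn i t ht
    refine ⟨cycle_congr (ext_cycle hce) key, fun U hU hUp hne hav => ?_⟩
    refine ext_not_average (hna U hU hUp hne) ?_
    obtain ⟨mν, ν, hν⟩ := hav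
    refine ⟨mν, ν, fun α hα hs => ?_⟩
    rw [← key _ hα]
    exact hν α hα hs

end Pool.Agent.Y997.NW.Tr
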