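import Pool.Agent.Y997.NW.B2

set_option autoImplicit false

open MeasureTheory Set Topology Filter
open scoped ContDiff NNReal ENNReal

/-! # Averages tested on multiples of the Kähler form only -/

namespace Pool.Agent.Y997.NW

open Pool.Agent.W581.Cyc

/-- the average formula for the measure `ν`, on the multiples of the Kähler form -/
def MassEq (U : Set C2) (c : Form 2 →ₗ[ℝ] ℝ)
    {_ : MeasurableSpace {V : Set C2 // IsIrreducibleCurve U V}}
    (ν : Measure {V : Set C2 // IsIrreducibleCurve U V}) : Prop :=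
  ∀ α : Form 2, (∃ g : C2 → ℝ, α.1 = fun z => g z • kahler) → tsupport α.1 ⊆ U →
    Integrable (fun V => integrationCurrent V.1 α.1) ν ∧ c α = ∫ V, integrationCurrent V.1 α.1 ∂ν

/-- the mass measure of `c` is an average of area measures of irreducible curves on `U` -/
def MassAvg (U : Set C2) (c : Form 2 →ₗ[ℝ] ℝ) : Prop :=
  ∃ (_ : MeasurableSpace {V : Set C2 // IsIrreducibleCurve U V})
    (ν : Measure {V : Set C2 // IsIrreducibleCurve U V}), MassEq U c ν

theorem diff_eq (v p : C2) (δ : ℝ) (n : ℕ) : (thinForm v p δ 0 - thinForm v p δ n).1 =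
    fun z => (thin v p δ 0 z - thin v p δ n z) • kahler := by
  funext z
  show thin v p δ 0 z • kahler - thin v p δ n z • kahler = _
  ext u
  simp only [ContinuousAlternatingMap.sub_apply, ContinuousAlternatingMap.smul_apply, smul_eq_mul]
  ring

/-- In an average the thin bumps are almost everywhere dominated by the first one. -/
theorem ae_dom_m {U : Set C2} (hU : IsOpen U) {c : Form 2 →ₗ[ℝ] ℝ}
    {_ : MeasurableSpace {V : Set C2 // IsIrreducibleCurve U V}}
    {ν : Measure {V : Set C2 // IsIrreducibleCurve U V}}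
    (hν : MassEq U c ν)
    (v p : C2) (δ : ℝ) (hs : {z | D p z ≤ δ} ⊆ U) (n : ℕ) :
    ∀ᵐ V ∂ν, integrationCurrent V.1 (thinForm v p δ n).1 ≤
      integrationCurrent V.1 (thinForm v p δ 0).1 := by
  obtain ⟨i0, e0⟩ := hν (thinForm v p δ 0) ⟨_, rfl⟩ ((tsupport_thinForm _ _ _ _).trans hs)
  obtain ⟨i1, e1⟩ := hν (thinForm v p δ n) ⟨_, rfl⟩ ((tsupport_thinForm _ _ _ _).trans hs)
  obtain ⟨i2, e2⟩ := hν (thinForm v p δ 0 - thinForm v p δ n) ⟨_, diff_eq v p δ n⟩ ((tsupport_diff _ _ _ _).trans hs)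
  have i12 : Integrable (fun V : {V : Set C2 // IsIrreducibleCurve U V} =>
      integrationCurrent V.1 (thinForm v p δ n).1 +
        integrationCurrent V.1 (thinForm v p δ 0 - thinForm v p δ n).1) ν := i1.add i2
  have hi : Integrable (fun V : {V : Set C2 // IsIrreducibleCurve U V} =>
      integrationCurrent V.1 (thinForm v p δ n).1 +
        integrationCurrent V.1 (thinForm v p δ 0 - thinForm v p δ n).1 -
        integrationCurrent V.1 (thinForm v p δ 0).1) ν := (i1.add i2).sub i0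
  have hz : ∫ V, (integrationCurrent V.1 (thinForm v p δ n).1 +
        integrationCurrent V.1 (thinForm v p δ 0 - thinForm v p δ n).1 -
        integrationCurrent V.1 (thinForm v p δ 0).1) ∂ν = 0 := by
    rw [integral_sub i12 i0, integral_add i1 i2, ← e0, ← e1, ← e2]
    have h4 := c.map_add (thinForm v p δ 0 - thinForm v p δ n) (thinForm v p δ n)
    rw [show thinForm v p δ 0 - thinForm v p δ n + thinForm v p δ n = thinForm v p δ 0 from
      Subtype.ext (sub_add_cancel _ _)] at h4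
    linarith
  have := (integral_eq_zero_iff_of_nonneg
    (fun V => sub_nonneg.2 (ic_subadd hU V.2.analytic v p δ n)) hi).1 hz
  filter_upwards [this] with V hV
  have h1 : integrationCurrent V.1 (thinForm v p δ n).1 +
        integrationCurrent V.1 (thinForm v p δ 0 - thinForm v p δ n).1 -
        integrationCurrent V.1 (thinForm v p δ 0).1 = 0 := hV
  have h2 := ic_diff_nonneg hU V.2.analytic v p δ n
  linarith

/-- positive side -/
theorem not_ae_tendsto_m {U : Set C2} (hU : IsOpen U) {c : Form 2 →ₗ[ℝ] ℝ}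
    {_ : MeasurableSpace {V : Set C2 // IsIrreducibleCurve U V}}
    {ν : Measure {V : Set C2 // IsIrreducibleCurve U V}}
    (hν : MassEq U c ν)
    (v p : C2) (δ : ℝ) (hs : {z | D p z ≤ δ} ⊆ U) {m : ℝ} (hm : 0 < m)
    (hc : ∀ n, m ≤ c (thinForm v p δ n)) :
    ¬ ∀ᵐ V ∂ν, Tendsto (fun n => integrationCurrent V.1 (thinForm v p δ n).1) atTop (𝓝 0) := by
  intro h
  have h1 : Tendsto (fun n => ∫ V, integrationCurrent V.1 (thinForm v p δ n).1 ∂ν) atTop
      (𝓝 (∫ _V, (0 : ℝ) ∂ν)) := by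
    refine tendsto_integral_of_dominated_convergence
      (fun V => integrationCurrent V.1 (thinForm v p δ 0).1) (fun n => ?_) ?_ (fun n => ?_) h
    · exact (hν (thinForm v p δ n) ⟨_, rfl⟩ ((tsupport_thinForm _ _ _ _).trans hs)).1.aestronglyMeasurable
    · exact (hν (thinForm v p δ 0) ⟨_, rfl⟩ ((tsupport_thinForm _ _ _ _).trans hs)).1
    · filter_upwards [ae_dom_m hU hν v p δ hs n] with V hV
      rw [Real.norm_eq_abs, abs_of_nonneg (ic_thin_nonneg hU V.2.analytic _ _ _ _)]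
      exact hV
  rw [integral_zero] at h1
  have h2 : ∀ n, m ≤ ∫ V, integrationCurrent V.1 (thinForm v p δ n).1 ∂ν := by
    intro n
    rw [← (hν (thinForm v p δ n) ⟨_, rfl⟩ ((tsupport_thinForm _ _ _ _).trans hs)).2]
    exact hc n
  have h3 := ge_of_tendsto' h1 h2
  linarith

/-- zero side -/
theorem ae_not_low_m {U : Set C2} (hU : IsOpen U) {c : Form 2 →ₗ[ℝ] ℝ}
    {_ : MeasurableSpace {V : Set C2 // IsIrreducibleCurve U V}}
    {ν : Measure {V : Set C2 // IsIrreducibleCurve U V}}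
    (hν : MassEq U c ν)
    (v p : C2) (δ : ℝ) (hs : {z | D p z ≤ δ} ⊆ U)
    (hc : Tendsto (fun n => c (thinForm v p δ n)) atTop (𝓝 0)) :
    ∀ᵐ V ∂ν, ¬ ∃ m > 0, ∀ n, m ≤ integrationCurrent V.1 (thinForm v p δ n).1 := by
  have key : ∀ k : ℕ, ν {V | ∀ n, 1 / (k + 1 : ℝ) ≤
      integrationCurrent V.1 (thinForm v p δ n).1} = 0 := by
    intro k
    have hk : (0 : ℝ) < 1 / (k + 1 : ℝ) := by positivity
    have hle : ∀ n, ν {V | ∀ n, 1 / (k + 1 : ℝ) ≤ integrationCurrent V.1 (thinForm v p δ n).1} ≤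
        ENNReal.ofReal (c (thinForm v p δ n) / (1 / (k + 1 : ℝ))) := by
      intro n
      obtain ⟨hi, he⟩ := hν (thinForm v p δ n) ⟨_, rfl⟩ ((tsupport_thinForm _ _ _ _).trans hs)
      have h1 : ν {V | ∀ n, 1 / (k + 1 : ℝ) ≤ integrationCurrent V.1 (thinForm v p δ n).1} ≤
          ν {V | ENNReal.ofReal (1 / (k + 1 : ℝ)) ≤
            ENNReal.ofReal (integrationCurrent V.1 (thinForm v p δ n).1)} :=
        measure_mono fun V hV => ENNReal.ofReal_le_ofReal (hV n)
      refine h1.trans ?_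
      have h2 := meas_ge_le_lintegral_div (μ := ν)
        (f := fun V => ENNReal.ofReal (integrationCurrent V.1 (thinForm v p δ n).1))
        (hi.aestronglyMeasurable.aemeasurable.ennreal_ofReal)
        (ε := ENNReal.ofReal (1 / (k + 1 : ℝ))) (by simpa using hk) ENNReal.ofReal_ne_top
      refine h2.trans ?_
      rw [← ofReal_integral_eq_lintegral_ofReal hi
        (Eventually.of_forall fun V => ic_thin_nonneg hU V.2.analytic _ _ _ _), ← he,
        ← ENNReal.ofReal_div_of_pos hk]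
    have hlim : Tendsto (fun n => ENNReal.ofReal (c (thinForm v p δ n) / (1 / (k + 1 : ℝ)))) atTop
        (𝓝 0) := by
      have := (hc.div_const (1 / (k + 1 : ℝ)))
      rw [zero_div] at this
      have h2 := ENNReal.tendsto_ofReal this
      rwa [ENNReal.ofReal_zero] at h2
    exact le_antisymm (ge_of_tendsto' hlim hle) bot_le
  have hall : ∀ᵐ V ∂ν, ∀ k : ℕ, ¬ ∀ n, 1 / (k + 1 : ℝ) ≤
      integrationCurrent V.1 (thinForm v p δ n).1 := by
    rw [ae_all_iff]
    intro k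
    rw [ae_iff]
    simpa using key k
  filter_upwards [hall] with V hV
  rintro ⟨m, hm, h⟩
  obtain ⟨k, hk⟩ := exists_nat_one_div_lt hm
  exact hV k fun n => hk.le.trans (h n)

/-- General form: what the current must satisfy to be nowhere an average. -/
theorem nowhere_gen_m (hL : S_LINE) (hZ : S_ZERO) (hLow : S_LOW) (hOn1 : S_ON1) {a : ℕ → C2}
    (ha1 : ∀ (x : C2) (r : ℝ), 0 < r → ∃ (k : ℕ) (y₁ y₂ : ℝ), ‖a k + im2 y₁ y₂ - x‖ < r)
    {w : ℕ → ℝ} (hw : ∀ k, 0 < w k) {c : Form 2 →ₗ[ℝ] ℝ}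
    (H1 : ∀ (k : ℕ) (y₁ y₂ : ℝ) (v : C2), v = a k + im2 y₁ y₂ → ∀ (p : C2) (δ : ℝ),
      (∀ b c, ∀ t ∈ Icc (0 : ℝ) 1, δ ≤ D p (pt 0 b c t + a k)) →
      Tendsto (fun n => c (thinForm v p δ n)) atTop (𝓝 0))
    (H2 : ∀ (k : ℕ) (v p : C2) (δ : ℝ) (n : ℕ),
      w k * tropAt (a k) (thinForm v p δ n) ≤ c (thinForm v p δ n))
    {U : Set C2} (hU : IsOpen U)
    (hUp : IsPeriodicSet U) (hne : U.Nonempty) : ¬ MassAvg U c := by
  rintro ⟨_, ν, hν⟩
  obtain ⟨x, hx⟩ := hne
  obtain ⟨r₀, hr00, hr0⟩ := Metric.isOpen_iff.1 hU x hx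
  obtain ⟨k, y₁, y₂, hk⟩ := ha1 x (r₀ / 2) (half_pos hr00)
  obtain ⟨v, hv⟩ : ∃ v, v = a k + im2 y₁ y₂ := ⟨_, rfl⟩
  rw [← hv] at hk
  set r := r₀ / 2 with hrdef
  have hr0' : 0 < r := half_pos hr00
  have hr : Metric.ball v r ⊆ U := by
    refine Subset.trans (fun z hz => ?_) hr0
    rw [Metric.mem_ball, dist_eq_norm] at hz ⊢
    calc ‖z - x‖ = ‖(z - v) + (v - x)‖ := by congr 1; abel
      _ ≤ ‖z - v‖ + ‖v - x‖ := norm_add_le _ _
      _ < r₀ := by linarith
  set s : ℝ := min (1 / 100) (r / 10) with hs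
  have hs0 : 0 < s := by positivity
  have hs1 : s ≤ 1 / 100 := min_le_left _ _
  have hsr : 10 * s ≤ r := by
    have := min_le_right (1 / 100 : ℝ) (r / 10)
    linarith
  have hd := norm_dir0
  have hd0 := norm_nonneg (dir 0)
  set p : C2 := v + s • dir 0 with hp
  set δ : ℝ := (s / 10) ^ 2 with hδ
  have hδ0 : 0 < δ := by positivity
  have hnear : ∀ z, D p z ≤ δ → ∃ l, InLattice l ∧ ‖z - l - p‖ < s / 10 := by
    intro z hz
    obtain ⟨l, hl, hle⟩ := exists_lattice_near p z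
    refine ⟨l, hl, ?_⟩
    have h1 : ‖z - p - l‖ < s / 10 := by
      have : ‖z - p - l‖ ^ 2 < (s / 10) ^ 2 := by
        nlinarith
      exact lt_of_pow_lt_pow_left₀ 2 (by positivity) this
    have : z - l - p = z - p - l := by abel
    rwa [this]
  have hsub : {z | D p z ≤ δ} ⊆ U := by
    intro z hz
    obtain ⟨l, hl, hzl⟩ := hnear z hz
    have h1 : z - l ∈ U := by
      apply hr
      rw [Metric.mem_ball, dist_eq_norm]
      calc ‖z - l - v‖ = ‖(z - l - p) + s • dir 0‖ := by congr 1; rw [hp]; abel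
        _ ≤ ‖z - l - p‖ + ‖s • dir 0‖ := norm_add_le _ _
        _ < r := by
          rw [norm_smul, Real.norm_eq_abs, abs_of_pos hs0]
          nlinarith
    have := hUp l hl (z - l)
    rw [sub_add_cancel] at this
    exact this.2 h1
  have hre : (ell (a k - v)).re = 0 := by
    rw [hv, show a k - (a k + im2 y₁ y₂) = -im2 y₁ y₂ by abel, ell_neg, Complex.neg_re, ell_im2_re,
      neg_zero]
  have hlatt : InLattice (im2 (⌊y₁⌋ : ℝ) (⌊y₂⌋ : ℝ)) := by
    intro j
    fin_cases j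
    · exact ⟨0, ⌊y₁⌋, by simp [im2]⟩
    · exact ⟨0, ⌊y₂⌋, by simp [im2]⟩
  have hpt : pt 0 (Int.fract y₁) (Int.fract y₂) (3 * s) + a k + im2 (⌊y₁⌋ : ℝ) (⌊y₂⌋ : ℝ) = p := by
    have e : im2 y₁ y₂ = im2 (Int.fract y₁) (Int.fract y₂) + im2 (⌊y₁⌋ : ℝ) (⌊y₂⌋ : ℝ) := by
      rw [← im2_add]; simp
    unfold pt
    rw [hp, hv, e, show (3 * s / 3 : ℝ) = s by ring]
    abel
  obtain ⟨m, hm, hm'⟩ := hOn1 (a k) v p δ hre ⟨Int.fract y₁,
    ⟨Int.fract_nonneg _, (Int.fract_lt_one _).le⟩, Int.fract y₂,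
    ⟨Int.fract_nonneg _, (Int.fract_lt_one _).le⟩, 3 * s, ⟨by linarith, by linarith⟩, by
      rw [← D_periodic p _ hlatt, hpt]
      have : D p p ≤ 0 := by simpa using D_le p p
      linarith⟩
  have hlow : ∀ n, w k * m ≤ c (thinForm v p δ n) := fun n =>
    (mul_le_mul_of_nonneg_left (hm' n) (hw k).le).trans (H2 k v p δ n)
  refine not_ae_tendsto_m hU hν v p δ hsub (mul_pos (hw k) hm) hlow ?_
  let P : ℕ → ℕ → Prop := fun i n =>
    ({z | D (TopologicalSpace.denseSeq C2 i) z ≤ 1 / (n + 1 : ℝ)} ⊆ U ∧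
      ∀ b c, ∀ t ∈ Icc (0 : ℝ) 1,
        1 / (n + 1 : ℝ) ≤ D (TopologicalSpace.denseSeq C2 i) (pt 0 b c t + a k))
  have hae : ∀ᵐ V ∂ν, ∀ i n, P i n → ¬ ∃ m > 0, ∀ N, m ≤
      integrationCurrent V.1 (thinForm v (TopologicalSpace.denseSeq C2 i) (1 / (n + 1 : ℝ)) N).1 := by
    rw [ae_all_iff]; intro i
    rw [ae_all_iff]; intro n
    by_cases hP : P i n
    · have := ae_not_low_m hU hν v (TopologicalSpace.denseSeq C2 i) (1 / (n + 1 : ℝ)) hP.1
        (H1 k y₁ y₂ v hv _ _ hP.2)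
      filter_upwards [this] with V hV _
      exact hV
    · exact Eventually.of_forall fun V h => absurd h hP
  filter_upwards [hae] with V hV
  refine hZ U V.1 v p δ hU V.2.analytic fun z hz hzD hzc hzL => ?_
  obtain ⟨l, hl, hzl⟩ := hnear z hzD.le
  have hz'L : LineAt V.1 (z - l) := by
    rw [sub_eq_add_neg]
    exact hzL.add V.2.analytic.periodic hl.neg
  obtain ⟨q, hqV, hqL, hqe, hqd⟩ := cross hL hU V.2.analytic V.2.pure hr hs0 hsr hz'L hzl
  have hcs : cs v q = 1 := by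
    rw [cs_congr hqe, sub_eq_add_neg, cs_periodic v (-l) hl.neg]; exact hzc
  obtain ⟨ρ, hρ, hint⟩ := hLow U V.1 v q hU V.2.analytic hqV hqL hcs
  have hρ' : 0 < min ρ (s / 20) := by positivity
  obtain ⟨i, n, hD, hnr⟩ := dense_center q hρ'
  refine hV i n ⟨?_, ?_⟩ (hint _ _ ?_ hD)
  · intro z hz
    obtain ⟨l', hl', hzl'⟩ := hnr z hz
    have hzl2 : ‖z - l' - q‖ < s / 20 := by
      rw [← dist_eq_norm]; exact (Metric.mem_ball.1 hzl').trans_le (min_le_right _ _)
    have h1 : z - l' ∈ U := by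
      apply hr
      rw [Metric.mem_ball, dist_eq_norm]
      calc ‖z - l' - v‖ = ‖(z - l' - q) + (q - (v - s • dir 0)) - s • dir 0‖ := by congr 1; abel
        _ ≤ ‖(z - l' - q) + (q - (v - s • dir 0))‖ + ‖s • dir 0‖ := norm_sub_le _ _
        _ ≤ ‖z - l' - q‖ + ‖q - (v - s • dir 0)‖ + ‖s • dir 0‖ := by
          gcongr; exact norm_add_le _ _
        _ < r := by
          rw [norm_smul, Real.norm_eq_abs, abs_of_pos hs0]
          nlinarith
    have := hUp l' hl' (z - l')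
    rw [sub_add_cancel] at this
    exact this.2 h1
  · intro b c' t ht
    by_contra hlt
    obtain ⟨l', hl', hzl'⟩ := hnr _ (not_le.1 hlt).le
    have hzl2 : ‖pt 0 b c' t + a k - l' - q‖ < s / 20 := by
      rw [← dist_eq_norm]; exact (Metric.mem_ball.1 hzl').trans_le (min_le_right _ _)
    refine edge_far (b := b) (c := c') hv hs0 hs1 hl' ?_ ht rfl
    calc ‖pt 0 b c' t + a k - l' - (v - s • dir 0)‖
        = ‖(pt 0 b c' t + a k - l' - q) + (q - (v - s • dir 0))‖ := by congr 1; abel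
      _ ≤ _ := norm_add_le _ _
      _ < 3 * s / 10 := by linarith
  · intro z hz
    obtain ⟨l', hl', hzl'⟩ := hnr z hz.le
    obtain ⟨m', rfl⟩ := hl'.exists_lat
    exact ⟨m', Metric.ball_subset_ball (min_le_left _ _) hzl'⟩

end Pool.Agent.Y997.NW
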